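import Mathlib

/-!
The elementary function `A a s = -2 Im log (1 - a e^{is})`: the lift of the Moebius map
`w ↦ (w - a) / (1 - a w)` to the real line is `s ↦ s + A a s`.
-/

open Filter Topology
open scoped ContDiff

namespace Pool.Agent.Helper49.Steklov

/-- `A a s = -2 Im log (1 - a e^{is})`. -/
noncomputable def A (a s : ℝ) : ℝ :=
  -2 * (Complex.log (1 - a * Complex.exp (s * Complex.I))).im

lemma norm_exp_I (s : ℝ) : ‖Complex.exp (s * Complex.I)‖ = 1 := Complex.norm_exp_ofReal_mul_I s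

lemma norm_a_exp {a : ℝ} (ha : 0 ≤ a) (s : ℝ) : ‖(a : ℂ) * Complex.exp (s * Complex.I)‖ = a := by
  rw [norm_mul, norm_exp_I, mul_one, Complex.norm_real, Real.norm_eq_abs, abs_of_nonneg ha]

lemma one_sub_ne_zero {a : ℝ} (ha : 0 ≤ a) (ha1 : a < 1) (s : ℝ) :
    (1 : ℂ) - a * Complex.exp (s * Complex.I) ≠ 0 := by
  intro h
  have h1 : (a : ℂ) * Complex.exp (s * Complex.I) = 1 := (sub_eq_zero.mp h).symm
  have h2 := norm_a_exp ha s
  rw [h1, norm_one] at h2
  linarith

lemma exp_A {a : ℝ} (ha : 0 ≤ a) (ha1 : a < 1) (s : ℝ) :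
    Complex.exp ((s + A a s : ℝ) * Complex.I) =
      (Complex.exp (s * Complex.I) - a) / (1 - a * Complex.exp (s * Complex.I)) := by
  have hd := one_sub_ne_zero ha ha1 s
  set d : ℂ := 1 - a * Complex.exp (s * Complex.I) with hd'
  have hL : Complex.exp (Complex.log d) = d := Complex.exp_log hd
  have h1 : (((A a s : ℝ) : ℂ)) * Complex.I
      = (starRingEnd ℂ) (Complex.log d) - Complex.log d := by
    apply Complex.ext
    · simp [A]
    · simp only [A, ← hd', Complex.sub_im, Complex.conj_im, Complex.mul_im, Complex.ofReal_re,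
        Complex.ofReal_im, Complex.I_re, Complex.I_im]
      ring
  have h2 : Complex.exp (((A a s : ℝ) : ℂ) * Complex.I) = (starRingEnd ℂ) d / d := by
    rw [h1, Complex.exp_sub, Complex.exp_conj, hL]
  have h3 : (starRingEnd ℂ) d = 1 - a * Complex.exp (-(s * Complex.I)) := by
    rw [hd', map_sub, map_one, map_mul, Complex.conj_ofReal, ← Complex.exp_conj, map_mul,
      Complex.conj_ofReal, Complex.conj_I]
    congr 3
    ring
  have h4 : Complex.exp (s * Complex.I) * Complex.exp (-(s * Complex.I)) = 1 := by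
    rw [← Complex.exp_add]; simp
  push_cast
  rw [add_mul, Complex.exp_add, h2, h3, ← mul_div_assoc]
  congr 1
  linear_combination (-(a : ℂ)) * h4

lemma A_hasSum {a : ℝ} (ha : 0 ≤ a) (ha1 : a < 1) (s : ℝ) :
    HasSum (fun n : ℕ => 2 * a ^ n / n * Real.sin (n * s)) (A a s) := by
  have h := Complex.hasSum_taylorSeries_neg_log
    (z := a * Complex.exp (s * Complex.I)) (by rw [norm_a_exp ha]; exact ha1)
  have h2 := (Complex.hasSum_im h).mul_left 2
  have h3 : 2 * (-Complex.log (1 - a * Complex.exp (s * Complex.I))).im = A a s := by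
    simp only [A, Complex.neg_im]; ring
  rw [h3] at h2
  refine h2.congr_fun ?_
  intro n
  have h4 : ((a : ℂ) * Complex.exp (s * Complex.I)) ^ n / n
      = ((a ^ n / n : ℝ) : ℂ) * Complex.exp ((n * s : ℝ) * Complex.I) := by
    rw [mul_pow, ← Complex.exp_nat_mul]
    push_cast
    ring_nf
  rw [h4, Complex.im_ofReal_mul, Complex.exp_ofReal_mul_I_im]
  ring

lemma A_eq_tsum {a : ℝ} (ha : 0 ≤ a) (ha1 : a < 1) :
    A a = fun s => ∑' n : ℕ, 2 * a ^ n / n * Real.sin (n * s) := by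
  ext s; exact (A_hasSum ha ha1 s).tsum_eq.symm

lemma A_neg {a : ℝ} (ha : 0 ≤ a) (ha1 : a < 1) (s : ℝ) : A a (-s) = -A a s := by
  have h1 := A_hasSum ha ha1 (-s)
  have h2 := (A_hasSum ha ha1 s).neg
  have h3 : (fun n : ℕ => 2 * a ^ n / n * Real.sin (n * -s))
      = fun n : ℕ => -(2 * a ^ n / n * Real.sin (n * s)) := by
    ext n; rw [mul_neg, Real.sin_neg]; ring
  rw [h3] at h1
  exact h1.unique h2

lemma A_add_two_pi (a s : ℝ) (k : ℤ) : A a (s + k * (2 * Real.pi)) = A a s := by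
  unfold A
  have : Complex.exp ((s + k * (2 * Real.pi) : ℝ) * Complex.I) = Complex.exp (s * Complex.I) := by
    push_cast
    rw [show ((s : ℂ) + k * (2 * Real.pi)) * Complex.I = s * Complex.I + k * (2 * Real.pi * Complex.I)
      by ring]
    exact Complex.exp_periodic.int_mul k _
  rw [this]

/-! ### Derivatives of sines -/

lemma abs_iteratedDeriv_sin_cos (k : ℕ) : (∀ x, |iteratedDeriv k Real.sin x| ≤ 1) ∧
    (∀ x, |iteratedDeriv k Real.cos x| ≤ 1) := by
  induction k with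
  | zero =>
    simp only [iteratedDeriv_zero]
    exact ⟨Real.abs_sin_le_one, Real.abs_cos_le_one⟩
  | succ k ih =>
    constructor
    · intro x
      rw [iteratedDeriv_succ', Real.deriv_sin]
      exact ih.2 x
    · intro x
      have h : deriv Real.cos = fun x => -Real.sin x := by ext x; exact Real.deriv_cos
      rw [iteratedDeriv_succ', h]
      have h2 : iteratedDeriv k (fun x => -Real.sin x) x = -iteratedDeriv k Real.sin x := by
        exact iteratedDeriv_fun_neg k Real.sin x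
      rw [h2, abs_neg]
      exact ih.1 x

lemma norm_iteratedFDeriv_sin_mul (k n : ℕ) (x : ℝ) :
    ‖iteratedFDeriv ℝ k (fun s => Real.sin (n * s)) x‖ ≤ (n : ℝ) ^ k := by
  rw [norm_iteratedFDeriv_eq_norm_iteratedDeriv]
  have h := iteratedDeriv_comp_const_smul (n := k) (f := Real.sin) Real.contDiff_sin (n : ℝ)
  simp only [smul_eq_mul] at h
  rw [h, norm_mul, norm_pow, Real.norm_natCast]
  exact mul_le_of_le_one_right (by positivity) ((abs_iteratedDeriv_sin_cos k).1 _)

/-- The constants in the derivative bounds for `A`. -/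
noncomputable def CA (k : ℕ) : ℝ := ∑' n : ℕ, 4 * ((n : ℝ) ^ k * (1 / 2) ^ n)

lemma summable_CA (k : ℕ) : Summable fun n : ℕ => 4 * ((n : ℝ) ^ k * (1 / 2) ^ n) :=
  (summable_pow_mul_geometric_of_norm_lt_one k (r := (1 / 2 : ℝ))
    (by rw [Real.norm_eq_abs, abs_of_pos] <;> norm_num)).mul_left 4

lemma CA_nonneg (k : ℕ) : 0 ≤ CA k := tsum_nonneg fun n => by positivity

lemma A_term_bound {a : ℝ} (ha : 0 ≤ a) (ha1 : a ≤ 1 / 2) (k n : ℕ) (x : ℝ) :
    ‖iteratedFDeriv ℝ k (fun s => 2 * a ^ n / n * Real.sin (n * s)) x‖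
      ≤ a * (4 * ((n : ℝ) ^ k * (1 / 2) ^ n)) := by
  rcases Nat.eq_zero_or_pos n with rfl | hn
  · have : (fun s : ℝ => 2 * a ^ 0 / ((0 : ℕ) : ℝ) * Real.sin (((0 : ℕ) : ℝ) * s)) = fun _ => 0 := by
      ext s; simp
    rw [this]
    have h0 : iteratedFDeriv ℝ k (fun _ : ℝ => (0 : ℝ)) x = 0 := by
      rw [iteratedFDeriv_fun_zero]; rfl
    rw [h0, norm_zero]
    positivity
  · have hsm : ContDiffAt ℝ k (fun s => Real.sin (n * s)) x :=
      (Real.contDiff_sin.comp (contDiff_const.mul contDiff_id)).contDiffAt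
    have h1 : iteratedFDeriv ℝ k (fun s => 2 * a ^ n / n * Real.sin (n * s)) x
        = (2 * a ^ n / n) • iteratedFDeriv ℝ k (fun s => Real.sin (n * s)) x := by
      have := iteratedFDeriv_const_smul_apply (𝕜 := ℝ) (a := 2 * a ^ n / n) hsm
      simpa [Pi.smul_def, smul_eq_mul] using this
    rw [h1, norm_smul]
    have h2 := norm_iteratedFDeriv_sin_mul k n x
    have hn' : (1 : ℝ) ≤ n := by exact_mod_cast hn
    have h3 : ‖2 * a ^ n / n‖ ≤ a * (4 * (1 / 2) ^ n) := by
      rw [Real.norm_eq_abs, abs_of_nonneg (by positivity)]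
      have h4 : a ^ n ≤ a * (2 * (1 / 2) ^ n) := by
        obtain ⟨m, rfl⟩ := Nat.exists_eq_succ_of_ne_zero hn.ne'
        have : a ^ m ≤ (1 / 2) ^ m := pow_le_pow_left₀ ha ha1 m
        calc a ^ (m + 1) = a * a ^ m := by ring
          _ ≤ a * (1 / 2) ^ m := mul_le_mul_of_nonneg_left this ha
          _ = a * (2 * (1 / 2) ^ (m + 1)) := by ring
      calc 2 * a ^ n / n ≤ 2 * a ^ n := div_le_self (by positivity) hn'
        _ ≤ a * (4 * (1 / 2) ^ n) := by linarith
    calc ‖2 * a ^ n / n‖ * ‖iteratedFDeriv ℝ k (fun s => Real.sin (n * s)) x‖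
        ≤ (a * (4 * (1 / 2) ^ n)) * (n : ℝ) ^ k := by
          refine mul_le_mul h3 h2 (norm_nonneg _) (by positivity)
      _ = a * (4 * ((n : ℝ) ^ k * (1 / 2) ^ n)) := by ring

lemma A_term_contDiff (a : ℝ) (n : ℕ) :
    ContDiff ℝ ∞ (fun s => 2 * a ^ n / n * Real.sin (n * s)) :=
  contDiff_const.mul (Real.contDiff_sin.comp (contDiff_const.mul contDiff_id))

lemma A_contDiff {a : ℝ} (ha : 0 ≤ a) (ha1 : a ≤ 1 / 2) : ContDiff ℝ ∞ (A a) := by
  rw [A_eq_tsum ha (by linarith)]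
  refine contDiff_tsum (N := ⊤) (v := fun (k n : ℕ) => a * (4 * ((n : ℝ) ^ k * (1 / 2) ^ n)))
    (fun n => A_term_contDiff a n) (fun k _ => (summable_CA k).mul_left a) ?_
  intro k n x _
  exact A_term_bound ha ha1 k n x

lemma A_deriv_bound {a : ℝ} (ha : 0 ≤ a) (ha1 : a ≤ 1 / 2) (k : ℕ) (x : ℝ) :
    ‖iteratedFDeriv ℝ k (A a) x‖ ≤ a * CA k := by
  rw [A_eq_tsum ha (by linarith)]
  rw [iteratedFDeriv_tsum_apply (N := ⊤) (v := fun (k n : ℕ) => a * (4 * ((n : ℝ) ^ k * (1 / 2) ^ n)))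
    (fun n => A_term_contDiff a n) (fun k _ => (summable_CA k).mul_left a)
    (fun k n x _ => A_term_bound ha ha1 k n x) le_top]
  have h := tsum_of_norm_bounded ((summable_CA k).mul_left a).hasSum
    (fun n => A_term_bound ha ha1 k n x)
  rwa [tsum_mul_left] at h

end Pool.Agent.Helper49.Steklov
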