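import Pool.Agent.Helper49.Steklov.AFun

/-!
Functions on the line with bounded derivatives, and the basic smallness estimate for
`A a (N ψ)`.
-/

open Filter Topology
open scoped ContDiff Nat

namespace Pool.Agent.Helper49.Steklov

/-- smooth with all derivatives of order at least one bounded -/
def BD (ψ : ℝ → ℝ) : Prop :=
  ContDiff ℝ ∞ ψ ∧ ∀ i : ℕ, 1 ≤ i → ∃ C : ℝ, ∀ s, ‖iteratedFDeriv ℝ i ψ s‖ ≤ C

lemma contDiff_nat {f : ℝ → ℝ} (h : ContDiff ℝ ∞ f) (k : ℕ) : ContDiff ℝ k f :=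
  h.of_le (by exact_mod_cast le_top)

lemma iteratedFDeriv_const_mul' {f : ℝ → ℝ} (hf : ContDiff ℝ ∞ f) (c : ℝ) (i : ℕ) (x : ℝ) :
    iteratedFDeriv ℝ i (fun s => c * f s) x = c • iteratedFDeriv ℝ i f x := by
  have := iteratedFDeriv_const_smul_apply (𝕜 := ℝ) (a := c) (contDiff_nat hf i).contDiffAt (x := x)
  simpa [Pi.smul_def, smul_eq_mul] using this

lemma comp_bound {ψ : ℝ → ℝ} (hψ : BD ψ) (r : ℕ) :
    ∃ C : ℝ, 0 ≤ C ∧ ∀ N : ℕ, 1 ≤ N → ∀ a : ℝ, 0 ≤ a → a ≤ 1 / 2 → ∀ i ≤ r, ∀ s,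
      ‖iteratedFDeriv ℝ i (fun s => A a (N * ψ s)) s‖ ≤ C * (a * (N : ℝ) ^ i) := by
  classical
  obtain ⟨hsm, hb⟩ := hψ
  have hb' : ∀ i : ℕ, ∃ C : ℝ, 0 ≤ C ∧ (1 ≤ i → ∀ s, ‖iteratedFDeriv ℝ i ψ s‖ ≤ C) := by
    intro i
    by_cases hi : 1 ≤ i
    · obtain ⟨C, hC⟩ := hb i hi
      exact ⟨C, (norm_nonneg _).trans (hC 0), fun _ => hC⟩
    · exact ⟨0, le_rfl, fun h => absurd h hi⟩
  choose c hc0 hc using hb'
  set C' : ℝ := 1 + ∑ i ∈ Finset.range (r + 1), c i with hC'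
  have hC'1 : 1 ≤ C' := by
    have : 0 ≤ ∑ i ∈ Finset.range (r + 1), c i := Finset.sum_nonneg fun i _ => hc0 i
    linarith
  have hcC' : ∀ i ≤ r, c i ≤ C' := by
    intro i hi
    have := Finset.single_le_sum (f := c) (fun i _ => hc0 i) (Finset.mem_range.mpr (Nat.lt_succ_of_le hi))
    linarith
  set M : ℝ := ∑ i ∈ Finset.range (r + 1), CA i with hM
  have hM0 : 0 ≤ M := Finset.sum_nonneg fun i _ => CA_nonneg i
  have hCM : ∀ i ≤ r, CA i ≤ M := by
    intro i hi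
    exact Finset.single_le_sum (f := CA) (fun i _ => CA_nonneg i)
      (Finset.mem_range.mpr (Nat.lt_succ_of_le hi))
  refine ⟨r ! * M * C' ^ r, by positivity, ?_⟩
  intro N hN a ha ha1 i hi s
  have hN1 : (1 : ℝ) ≤ N := by exact_mod_cast hN
  have hNC : 1 ≤ N * C' := by nlinarith
  have key := norm_iteratedFDeriv_comp_le (𝕜 := ℝ) (g := A a) (f := fun s => (N : ℝ) * ψ s) (n := i)
    (N := ∞) (A_contDiff ha ha1) (contDiff_const.mul hsm) (by exact_mod_cast le_top) s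
    (C := a * M) (D := N * C')
    (fun l hl => (A_deriv_bound ha ha1 l _).trans
      (mul_le_mul_of_nonneg_left (hCM l (hl.trans hi)) ha))
    (fun l hl1 hl => by
      rw [iteratedFDeriv_const_mul' hsm, norm_smul, Real.norm_natCast]
      calc (N : ℝ) * ‖iteratedFDeriv ℝ l ψ s‖ ≤ N * C' := by
            refine mul_le_mul_of_nonneg_left ?_ (by positivity)
            exact (hc l hl1 s).trans (hcC' l (hl.trans hi))
        _ ≤ (N * C') ^ l := le_self_pow₀ hNC (by omega))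
  have e : (A a ∘ fun s => (N : ℝ) * ψ s) = fun s => A a (N * ψ s) := rfl
  rw [e] at key
  refine key.trans ?_
  have h1 : (i ! : ℝ) ≤ r ! := by exact_mod_cast Nat.factorial_le hi
  have h2 : C' ^ i ≤ C' ^ r := pow_le_pow_right₀ hC'1 hi
  calc (i ! : ℝ) * (a * M) * (N * C') ^ i = (i ! * (a * M) * (N : ℝ) ^ i) * C' ^ i := by
        rw [mul_pow]; ring
    _ ≤ (r ! * (a * M) * (N : ℝ) ^ i) * C' ^ r := by
        refine mul_le_mul ?_ h2 (by positivity) (by positivity)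
        refine mul_le_mul_of_nonneg_right ?_ (by positivity)
        exact mul_le_mul_of_nonneg_right h1 (by positivity)
    _ = r ! * M * C' ^ r * (a * (N : ℝ) ^ i) := by ring

lemma contDiff_A_comp {ψ : ℝ → ℝ} (hψ : ContDiff ℝ ∞ ψ) {a : ℝ} (ha : 0 ≤ a) (ha1 : a ≤ 1 / 2)
    (N : ℝ) : ContDiff ℝ ∞ (fun s => A a (N * ψ s)) :=
  (A_contDiff ha ha1).comp (contDiff_const.mul hψ)

lemma BD.step {ψ : ℝ → ℝ} (hψ : BD ψ) {a : ℝ} (ha : 0 ≤ a) (ha1 : a ≤ 1 / 2) {N : ℕ} (hN : 1 ≤ N) :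
    BD (fun s => N * ψ s + A a (N * ψ s)) := by
  refine ⟨(contDiff_const.mul hψ.1).add (contDiff_A_comp hψ.1 ha ha1 N), ?_⟩
  intro i hi
  obtain ⟨C, hC0, hC⟩ := comp_bound hψ i
  obtain ⟨C2, hC2⟩ := hψ.2 i hi
  refine ⟨N * C2 + C * (a * (N : ℝ) ^ i), fun s => ?_⟩
  have h1 : iteratedFDeriv ℝ i (fun s => N * ψ s + A a (N * ψ s)) s
      = iteratedFDeriv ℝ i (fun s => N * ψ s) s + iteratedFDeriv ℝ i (fun s => A a (N * ψ s)) s := by
    have := iteratedFDeriv_add_apply (𝕜 := ℝ) (i := i) (x := s) (f := fun s => (N : ℝ) * ψ s)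
      (g := fun s => A a (N * ψ s)) (contDiff_nat (contDiff_const.mul hψ.1) i).contDiffAt
      (contDiff_nat (contDiff_A_comp hψ.1 ha ha1 N) i).contDiffAt
    exact this
  rw [h1]
  refine (norm_add_le _ _).trans (add_le_add ?_ (hC N hN a ha ha1 i le_rfl s))
  rw [iteratedFDeriv_const_mul' hψ.1, norm_smul, Real.norm_natCast]
  exact mul_le_mul_of_nonneg_left (hC2 s) (by positivity)

lemma BD_id : BD (fun s => s) := by
  refine ⟨contDiff_id, fun i hi => ?_⟩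
  rcases Nat.lt_or_ge 1 i with h | h
  · refine ⟨0, fun s => ?_⟩
    rw [norm_iteratedFDeriv_eq_norm_iteratedDeriv]
    obtain ⟨j, rfl⟩ := Nat.exists_eq_add_of_lt h
    have : iteratedDeriv (1 + j + 1) (fun s : ℝ => s) = fun _ => 0 := by
      rw [show 1 + j + 1 = j + 1 + 1 by ring, iteratedDeriv_succ', iteratedDeriv_succ']
      have e1 : deriv (fun s : ℝ => s) = fun _ => 1 := by ext x; simp
      rw [e1]
      have e2 : deriv (fun _ : ℝ => (1 : ℝ)) = fun _ => 0 := by ext x; simp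
      rw [e2]
      ext x
      simp
    rw [this]; simp
  · have : i = 1 := by omega
    subst this
    refine ⟨1, fun s => ?_⟩
    rw [norm_iteratedFDeriv_eq_norm_iteratedDeriv, iteratedDeriv_one]
    simp

end Pool.Agent.Helper49.Steklov
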