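import Pool.Agent.Helper49.Steklov.Nodal

/-!
Choice of the degrees.
-/

open Filter Topology Metric MeasureTheory Set
open scoped ENNReal NNReal Real ContDiff

namespace Pool.Agent.Helper49.Steklov

lemma exists_seq_of_local {α : Type*} [Inhabited α] (P : (ℕ → α) → ℕ → Prop)
    (hloc : ∀ f g j, (∀ i ≤ j, f i = g i) → P f j → P g j)
    (hex : ∀ f j, ∃ a, P (Function.update f j a) j) : ∃ f, ∀ j, P f j := by
  classical
  choose c hc using hex
  let F : ℕ → (ℕ → α) := fun n => Nat.rec (fun _ => default)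
    (fun n Fn => Function.update Fn n (c Fn n)) n
  have hF : ∀ n, F (n + 1) = Function.update (F n) n (c (F n) n) := fun n => rfl
  let f : ℕ → α := fun j => F (j + 1) j
  have key : ∀ n i, i < n → F n i = f i := by
    intro n
    induction n with
    | zero => intro i hi; omega
    | succ n ih =>
      intro i hi
      rcases Nat.lt_succ_iff_lt_or_eq.mp hi with h | h
      · rw [hF, Function.update_of_ne (by omega)]
        exact ih i h
      · subst h; rfl
  refine ⟨f, fun j => hloc (F (j + 1)) f j (fun i hi => key (j + 1) i (by omega)) ?_⟩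
  rw [hF]
  exact hc (F j) j

lemma al_congr {N N' : ℕ → ℕ} {j : ℕ} (h : N j = N' j) : al N j = al N' j := by
  unfold al; rw [h]

lemma psi_congr {N N' : ℕ → ℕ} {k n : ℕ} (h : ∀ i, k ≤ i → i < k + n → N i = N' i) :
    psi N k n = psi N' k n := by
  induction n with
  | zero => rfl
  | succ n ih =>
    ext s
    rw [psi_succ, psi_succ, ih (fun i h1 h2 => h i h1 (by omega)), h (k + n) (by omega) (by omega),
      al_congr (h (k + n) (by omega) (by omega))]

lemma tau_congr {N N' : ℕ → ℕ} {k : ℕ} (h : ∀ i, i < k → N i = N' i) : tau N k = tau N' k := by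
  unfold tau
  split_ifs with h0
  · rfl
  · rw [al_congr (h (k - 1) (by omega))]

lemma g_congr {N N' : ℕ → ℕ} {j : ℕ} (h : ∀ i, i < j → N i = N' i) : g N j = g N' j := by
  induction j with
  | zero => rfl
  | succ j ih =>
    ext z
    rw [g_succ, g_succ, ih (fun i hi => h i (by omega)), h j (by omega), al_congr (h j (by omega))]

/-- the condition on `N j` that makes the nodal set short -/
def Nod (om : ℝ → ℝ) (N : ℕ → ℕ) (j : ℕ) : Prop :=
  ∃ (η : ℝ) (K : ℝ≥0),
    (∀ S : Set ℂ, μH[1] {z : ℂ | ‖z‖ ≤ 1 ∧ g N j z ∈ S ∧ 1 - η ≤ ‖g N j z‖} ≤ K * μH[1] S) ∧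
    (1 - η) ^ N j ≤ al N j / 2 ∧ j ≤ N j ∧
    ∀ x : ℝ, (N j : ℝ) / 2 ≤ x → 2 * (K * (5 + 6 * Real.log (2 / al N j))) ≤ om x * Real.log x

lemma GoodA_congr {N N' : ℕ → ℕ} {j : ℕ} (h : ∀ i ≤ j, N i = N' i) (hG : GoodA N j) :
    GoodA N' j := by
  intro k hk i hi s
  have := hG k hk i hi s
  rwa [al_congr (h j le_rfl), h j le_rfl,
    psi_congr (k := k) (n := j - k) (fun i _ h2 => h i (by omega)),
    tau_congr (k := k) (fun i hi => h i (by omega))] at this

lemma Nod_congr {om : ℝ → ℝ} {N N' : ℕ → ℕ} {j : ℕ} (h : ∀ i ≤ j, N i = N' i)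
    (hG : Nod om N j) : Nod om N' j := by
  unfold Nod at hG ⊢
  rwa [al_congr (h j le_rfl), h j le_rfl, g_congr (fun i hi => h i (by omega))] at hG

lemma ev_GoodA {N : ℕ → ℕ} (hN : ∀ j, 3 ≤ N j) (j : ℕ) :
    ∀ᶠ M : ℕ in atTop, GoodA (Function.update N j M) j := by
  have h1 : ∀ k ≤ j, ∀ᶠ M : ℕ in atTop, ∀ i ≤ j + 3, ∀ s,
      ‖iteratedFDeriv ℝ i (fun s => A ((M : ℝ) ^ (j + 4))⁻¹ (M * psi N k (j - k) s)) s‖
        ≤ tau N k * (1 / 2) ^ (j - k + 1) := by
    intro k _
    obtain ⟨C, hC0, hC⟩ := comp_bound (psi_BD hN k (j - k)) (j + 3)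
    have hpos : 0 < tau N k * (1 / 2) ^ (j - k + 1) := mul_pos (tau_pos hN k) (by positivity)
    have h2 : Tendsto (fun M : ℕ => C * (1 / (M : ℝ))) atTop (𝓝 (C * 0)) :=
      tendsto_one_div_atTop_nhds_zero_nat.const_mul C
    rw [mul_zero] at h2
    filter_upwards [h2.eventually_le_const hpos, eventually_ge_atTop 2] with M hM hM2 i hi s
    have hM1 : (2 : ℝ) ≤ M := by exact_mod_cast hM2
    have hM0 : (0 : ℝ) < M := by linarith
    have ha : ((M : ℝ) ^ (j + 4))⁻¹ ≤ 1 / 2 := by
      rw [one_div]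
      apply inv_anti₀ (by norm_num)
      calc (2 : ℝ) ≤ M := hM1
        _ ≤ (M : ℝ) ^ (j + 4) := le_self_pow₀ (by linarith) (by omega)
    refine (hC M (by omega) _ (by positivity) ha i hi s).trans (le_trans ?_ hM)
    apply mul_le_mul_of_nonneg_left _ hC0
    rw [inv_mul_le_iff₀ (by positivity), mul_one_div, le_div_iff₀ hM0, ← pow_succ]
    exact pow_le_pow_right₀ (by linarith) (by omega)
  have h2 : ∀ᶠ M : ℕ in atTop, ∀ k ∈ Finset.range (j + 1), ∀ i ≤ j + 3, ∀ s,
      ‖iteratedFDeriv ℝ i (fun s => A ((M : ℝ) ^ (j + 4))⁻¹ (M * psi N k (j - k) s)) s‖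
        ≤ tau N k * (1 / 2) ^ (j - k + 1) := by
    rw [Filter.eventually_all_finset]
    intro k hk
    exact h1 k (by have := Finset.mem_range.mp hk; omega)
  filter_upwards [h2] with M hM k hk i hi s
  have h3 := hM k (Finset.mem_range.mpr (by omega)) i hi s
  have e1 : psi (Function.update N j M) k (j - k) = psi N k (j - k) :=
    psi_congr fun i _ h2 => Function.update_of_ne (by omega) _ _
  have e2 : tau (Function.update N j M) k = tau N k :=
    tau_congr fun i hi => Function.update_of_ne (by omega) _ _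
  have e3 : al (Function.update N j M) j = ((M : ℝ) ^ (j + 4))⁻¹ := by
    unfold al; rw [Function.update_self]
  rw [e1, e2, e3, Function.update_self]
  exact h3

lemma ev_Nod {om : ℝ → ℝ} (hom : Tendsto om atTop atTop) {N : ℕ → ℕ} (hN : ∀ j, 3 ≤ N j) (j : ℕ) :
    ∀ᶠ M : ℕ in atTop, Nod om (Function.update N j M) j := by
  obtain ⟨η, hη0, hη1, K, hK⟩ := exists_distortion (g := g N j) (fun z hz => g_analyticAt hN j hz)
    (fun z hz => norm_g_lt hN j hz) (fun z hz => by
      have e : z = Complex.exp ((Complex.arg z : ℝ) * Complex.I) := by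
        have := Complex.norm_mul_exp_arg_mul_I z
        rw [hz] at this
        simpa using this.symm
      rw [e]
      exact deriv_g_ne_zero hN j _)
  have h1 : ∀ᶠ M : ℕ in atTop, (M : ℝ) ^ (j + 4) * (1 - η) ^ M ≤ 1 / 2 :=
    (tendsto_pow_const_mul_const_pow_of_abs_lt_one (j + 4) (r := 1 - η)
      (by rw [abs_lt]; constructor <;> linarith)).eventually_le_const (by norm_num)
  have h2 : ∀ᶠ y : ℝ in atTop, ∀ x ≥ y, 4 * (K : ℝ) * (11 + 6 * (j + 4)) ≤ om x := by
    obtain ⟨y₀, hy₀⟩ := (eventually_atTop.mp (hom.eventually_ge_atTop (4 * (K : ℝ) * (11 + 6 * (j + 4)))))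
    filter_upwards [eventually_ge_atTop y₀] with y hy x hx
    exact hy₀ x (hy.trans hx)
  have h3 : Tendsto (fun M : ℕ => (M : ℝ) / 2) atTop atTop :=
    tendsto_natCast_atTop_atTop.atTop_div_const (by norm_num)
  filter_upwards [h1, h3.eventually h2, eventually_ge_atTop 4, eventually_ge_atTop j]
    with M hM1 hM2 hM3 hM5
  have hM4 : (4 : ℝ) ≤ M := by exact_mod_cast hM3
  have hM0 : (0 : ℝ) < M := by linarith
  have e1 : g (Function.update N j M) j = g N j :=
    g_congr fun i hi => Function.update_of_ne (by omega) _ _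
  have e3 : al (Function.update N j M) j = ((M : ℝ) ^ (j + 4))⁻¹ := by
    unfold al; rw [Function.update_self]
  refine ⟨η, K, ?_, ?_, ?_, ?_⟩
  · rw [e1]; exact hK
  · rw [e3, Function.update_self, div_eq_mul_inv, le_inv_mul_iff₀ (by positivity)]
    linarith
  · rw [Function.update_self]; exact hM5
  · intro x hx
    rw [Function.update_self] at hx
    rw [e3, div_inv_eq_mul, Real.log_mul (by norm_num) (by positivity), Real.log_pow]
    push_cast
    have hlog2 : Real.log 2 ≤ 1 := by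
      have := Real.log_two_lt_d9
      linarith
    have hlogM : 1 ≤ Real.log M := by
      rw [Real.le_log_iff_exp_le hM0]
      have := Real.exp_one_lt_d9
      linarith
    have hlogx : Real.log M / 2 ≤ Real.log x := by
      have e : Real.log M / 2 = Real.log (√M) := by rw [Real.log_sqrt hM0.le]
      rw [e]
      apply Real.log_le_log (Real.sqrt_pos.mpr hM0)
      refine le_trans ?_ hx
      rw [Real.sqrt_le_left (by positivity)]
      nlinarith
    have hK0 : (0 : ℝ) ≤ K := K.2
    have homx := hM2 x hx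
    have hj : (0 : ℝ) ≤ j := Nat.cast_nonneg j
    calc 2 * (K * (5 + 6 * (Real.log 2 + ((j : ℝ) + 4) * Real.log M)))
        ≤ 2 * (K * ((11 + 6 * (j + 4)) * Real.log M)) := by
          gcongr
          nlinarith
      _ = (4 * K * (11 + 6 * (j + 4))) * (Real.log M / 2) := by ring
      _ ≤ om x * Real.log x := by
          apply mul_le_mul homx hlogx (by linarith)
          exact le_trans (by positivity) homx

theorem exists_N {om : ℝ → ℝ} (hom : Tendsto om atTop atTop) :
    ∃ N : ℕ → ℕ, (∀ j, 3 ≤ N j) ∧ (∀ j, GoodA N j) ∧ ∀ j, Nod om N j := by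
  have : Inhabited {n : ℕ // 3 ≤ n} := ⟨⟨3, le_rfl⟩⟩
  obtain ⟨f, hf⟩ := exists_seq_of_local (α := {n : ℕ // 3 ≤ n})
    (fun f j => GoodA (fun i => (f i : ℕ)) j ∧ Nod om (fun i => (f i : ℕ)) j)
    (fun f g j h hP => ⟨GoodA_congr (fun i hi => by rw [h i hi]) hP.1,
      Nod_congr (fun i hi => by rw [h i hi]) hP.2⟩)
    (fun f j => by
      have hN : ∀ j, 3 ≤ (fun i => (f i : ℕ)) j := fun j => (f j).2
      obtain ⟨M, hM1, hM2, hM3⟩ := ((ev_GoodA hN j).and ((ev_Nod hom hN j).and
        (eventually_ge_atTop 3))).exists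
      refine ⟨⟨M, hM3⟩, ?_⟩
      have e : (fun i => ((Function.update f j ⟨M, hM3⟩ : ℕ → {n : ℕ // 3 ≤ n}) i : ℕ))
          = Function.update (fun i => (f i : ℕ)) j M := by
        ext i
        by_cases hi : i = j
        · subst hi; simp
        · rw [Function.update_of_ne hi, Function.update_of_ne hi]
      rw [e]
      exact ⟨hM1, hM2⟩)
  exact ⟨fun i => (f i : ℕ), fun j => (f j).2, fun j => (hf j).1, fun j => (hf j).2⟩

end Pool.Agent.Helper49.Steklov
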