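import Pool.Agent.Helper49.Steklov.Fixed

/-!
Absolutely convergent power series on the closed unit disk, and the boundary relation.
-/

open Filter Topology Metric
open scoped ENNReal NNReal

namespace Pool.Agent.Helper49.Steklov

section Series

variable {c : ℤ → ℝ} {m : ℤ → ℕ}

/-- `F(ζ) = ∑ c_k ζ^{m_k}` -/
noncomputable def FS (c : ℤ → ℝ) (m : ℤ → ℕ) (z : ℂ) : ℂ := ∑' k, (c k : ℂ) * z ^ m k

/-- the derivative of `FS` -/
noncomputable def FS' (c : ℤ → ℝ) (m : ℤ → ℕ) (z : ℂ) : ℂ :=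
  ∑' k, (c k : ℂ) * (m k * z ^ (m k - 1))

lemma FS_term_le (k : ℤ) {z : ℂ} (hz : ‖z‖ ≤ 1) : ‖(c k : ℂ) * z ^ m k‖ ≤ |c k| := by
  rw [norm_mul, norm_pow, Complex.norm_real, Real.norm_eq_abs]
  exact mul_le_of_le_one_right (abs_nonneg _) (pow_le_one₀ (norm_nonneg _) hz)

lemma FS'_term_le (k : ℤ) {z : ℂ} (hz : ‖z‖ ≤ 1) :
    ‖(c k : ℂ) * (m k * z ^ (m k - 1))‖ ≤ m k * |c k| := by
  rw [norm_mul, norm_mul, norm_pow, Complex.norm_real, Real.norm_eq_abs, Complex.norm_natCast,
    mul_comm]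
  refine mul_le_mul_of_nonneg_right ?_ (abs_nonneg _)
  exact mul_le_of_le_one_right (Nat.cast_nonneg _) (pow_le_one₀ (norm_nonneg _) hz)

lemma FS_hasDerivWithinAt (hc : Summable fun k => |c k|) (hmc : Summable fun k => (m k : ℝ) * |c k|)
    {z : ℂ} (hz : z ∈ closedBall (0 : ℂ) 1) :
    HasDerivWithinAt (FS c m) (FS' c m z) (closedBall 0 1) z := by
  rw [hasDerivWithinAt_iff_tendsto_slope]
  have hz' : ‖z‖ ≤ 1 := mem_closedBall_zero_iff.mp hz
  let G : ℂ → ℤ → ℂ := fun w k => (c k : ℂ) * ∑ i ∈ Finset.range (m k), w ^ i * z ^ (m k - 1 - i)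
  have hG : Tendsto (fun w => ∑' k, G w k) (𝓝[closedBall 0 1 \ {z}] z) (𝓝 (FS' c m z)) := by
    apply tendsto_tsum_of_dominated_convergence hmc
    · intro k
      have h1 : Continuous fun w : ℂ =>
          (c k : ℂ) * ∑ i ∈ Finset.range (m k), w ^ i * z ^ (m k - 1 - i) := by fun_prop
      have h2 := (h1.tendsto z).mono_left (nhdsWithin_le_nhds (s := closedBall 0 1 \ {z}))
      have h3 : ∑ i ∈ Finset.range (m k), z ^ i * z ^ (m k - 1 - i) = m k * z ^ (m k - 1) := by
        rw [Finset.sum_congr rfl (g := fun _ => z ^ (m k - 1))]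
        · simp
        · intro i hi
          rw [← pow_add]
          congr 1
          have := Finset.mem_range.mp hi
          omega
      rw [h3] at h2
      exact h2
    · filter_upwards [self_mem_nhdsWithin] with w hw k
      have hw' : ‖w‖ ≤ 1 := mem_closedBall_zero_iff.mp hw.1
      simp only [G]
      rw [norm_mul, Complex.norm_real, Real.norm_eq_abs, mul_comm]
      refine mul_le_mul_of_nonneg_right ?_ (abs_nonneg _)
      refine (norm_sum_le _ _).trans ?_
      calc ∑ i ∈ Finset.range (m k), ‖w ^ i * z ^ (m k - 1 - i)‖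
          ≤ ∑ i ∈ Finset.range (m k), (1 : ℝ) := by
            refine Finset.sum_le_sum fun i _ => ?_
            rw [norm_mul, norm_pow, norm_pow]
            exact mul_le_one₀ (pow_le_one₀ (norm_nonneg _) hw') (by positivity)
              (pow_le_one₀ (norm_nonneg _) hz')
        _ = m k := by simp
  refine hG.congr' ?_
  filter_upwards [self_mem_nhdsWithin] with w hw
  have hw' : ‖w‖ ≤ 1 := mem_closedBall_zero_iff.mp hw.1
  have hne : w - z ≠ 0 := sub_ne_zero.mpr (by simpa using hw.2)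
  have s1 : Summable fun k => (c k : ℂ) * w ^ m k := .of_norm_bounded hc fun k => FS_term_le k hw'
  have s2 : Summable fun k => (c k : ℂ) * z ^ m k := .of_norm_bounded hc fun k => FS_term_le k hz'
  rw [slope_def_field, FS, FS, ← s1.tsum_sub s2, ← tsum_div_const]
  congr 1
  ext k
  simp only [G]
  rw [eq_div_iff hne, mul_assoc, geom_sum₂_mul]
  ring

lemma FS'_continuousOn (hmc : Summable fun k => (m k : ℝ) * |c k|) :
    ContinuousOn (FS' c m) (closedBall 0 1) := by
  refine continuousOn_tsum (u := fun k => (m k : ℝ) * |c k|) (fun k => by fun_prop) hmc ?_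
  intro k z hz
  exact FS'_term_le k (mem_closedBall_zero_iff.mp hz)

lemma FS_close (hc : Summable fun k => |c k|) (hc0 : c 0 = 1) (hm0 : m 0 = 1)
    (hm : ∀ k, k ≠ 0 → 1 ≤ m k) {η : ℝ}
    (hs : Summable fun k => if k = 0 then 0 else (m k : ℝ) * |c k|)
    (hη : ∑' k, (if k = 0 then 0 else (m k : ℝ) * |c k|) ≤ η) {z : ℂ} (hz : ‖z‖ ≤ 1) :
    ‖FS c m z - z‖ ≤ η := by
  have s1 : Summable fun k => (c k : ℂ) * z ^ m k := .of_norm_bounded hc fun k => FS_term_le k hz
  rw [FS, s1.tsum_eq_add_tsum_ite 0, hc0, hm0]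
  have e : ((1 : ℝ) : ℂ) * z ^ 1 + (∑' k, if k = 0 then 0 else (c k : ℂ) * z ^ m k) - z
      = ∑' k, if k = 0 then 0 else (c k : ℂ) * z ^ m k := by push_cast; ring
  rw [e]
  refine (tsum_of_norm_bounded hs.hasSum fun k => ?_).trans hη
  split_ifs with hk
  · simp
  · refine (FS_term_le k hz).trans ?_
    have : (1 : ℝ) ≤ m k := by exact_mod_cast hm k hk
    nlinarith [abs_nonneg (c k)]

lemma FS'_close (hc0 : c 0 = 1) (hm0 : m 0 = 1) {η : ℝ}
    (hmc : Summable fun k => (m k : ℝ) * |c k|)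
    (hs : Summable fun k => if k = 0 then 0 else (m k : ℝ) * |c k|)
    (hη : ∑' k, (if k = 0 then 0 else (m k : ℝ) * |c k|) ≤ η) {z : ℂ} (hz : ‖z‖ ≤ 1) :
    ‖FS' c m z - 1‖ ≤ η := by
  have s1 : Summable fun k => (c k : ℂ) * (m k * z ^ (m k - 1)) :=
    .of_norm_bounded hmc fun k => FS'_term_le k hz
  rw [FS', s1.tsum_eq_add_tsum_ite 0, hc0, hm0]
  have e : ((1 : ℝ) : ℂ) * (((1 : ℕ) : ℂ) * z ^ (1 - 1))
      + (∑' k, if k = 0 then 0 else (c k : ℂ) * (m k * z ^ (m k - 1))) - 1
      = ∑' k, if k = 0 then 0 else (c k : ℂ) * (m k * z ^ (m k - 1)) := by push_cast; ring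
  rw [e]
  refine (tsum_of_norm_bounded hs.hasSum fun k => ?_).trans hη
  split_ifs with hk
  · simp
  · exact FS'_term_le k hz

end Series

lemma hasSum_exp_of_even {q : ℤ → ℝ} (hq : Summable fun l => |q l|) (hsym : ∀ l, q (-l) = q l)
    {x y : ℝ} (h : HasSum (fun l : ℤ => q l * Real.cos (l * x)) y) :
    HasSum (fun l : ℤ => (q l : ℂ) * Complex.exp (l * x * Complex.I)) y := by
  have hb : ∀ l : ℤ, ‖(q l : ℂ) * Complex.exp (l * x * Complex.I)‖ ≤ |q l| := by
    intro l
    rw [norm_mul, Complex.norm_real, Real.norm_eq_abs]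
    have : ‖Complex.exp (l * x * Complex.I)‖ = 1 := by
      have := Complex.norm_exp_ofReal_mul_I (l * x)
      push_cast at this; exact this
    rw [this, mul_one]
  have hs : Summable fun l : ℤ => (q l : ℂ) * Complex.exp (l * x * Complex.I) :=
    .of_norm_bounded hq hb
  obtain ⟨S, hS⟩ := hs
  have e : ∀ l : ℤ, Complex.exp (l * x * Complex.I)
      = Complex.exp (((l * x : ℝ) : ℂ) * Complex.I) := by intro l; push_cast; rfl
  have hre := Complex.hasSum_re hS
  have him := Complex.hasSum_im hS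
  have e1 : (fun l : ℤ => ((q l : ℂ) * Complex.exp (l * x * Complex.I)).re)
      = fun l : ℤ => q l * Real.cos (l * x) := by
    ext l; rw [e, Complex.re_ofReal_mul, Complex.exp_ofReal_mul_I_re]
  have e2 : (fun l : ℤ => ((q l : ℂ) * Complex.exp (l * x * Complex.I)).im)
      = fun l : ℤ => q l * Real.sin (l * x) := by
    ext l; rw [e, Complex.im_ofReal_mul, Complex.exp_ofReal_mul_I_im]
  rw [e1] at hre
  rw [e2] at him
  have h1 : S.re = y := hre.unique h
  have h2 : HasSum (fun l : ℤ => -(q l * Real.sin (l * x))) S.im := by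
    have := (Equiv.neg ℤ).hasSum_iff.mpr him
    refine this.congr_fun fun l => ?_
    simp only [Function.comp, Equiv.neg_apply]
    rw [hsym, Int.cast_neg, neg_mul, Real.sin_neg]; ring
  have h3 : S.im = 0 := by
    have := h2.unique him.neg
    linarith
  have h4 : S = (y : ℂ) := Complex.ext (by simp [h1]) (by simp [h3])
  rwa [← h4]

/-- exponents -/
def expo (N : ℕ) (k : ℤ) : ℕ := (1 + k * N).natAbs

lemma expo_zero (N : ℕ) : expo N 0 = 1 := by simp [expo]

lemma expo_cast (N : ℕ) (k : ℤ) : (expo N k : ℝ) = |1 + (k : ℝ) * N| := by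
  unfold expo
  rw [Nat.cast_natAbs]
  push_cast
  rfl

lemma two_le_expo {N : ℕ} (hN : 3 ≤ N) {k : ℤ} (hk : k ≠ 0) : 2 ≤ expo N k := by
  unfold expo
  have h3 : (3 : ℤ) ≤ N := by exact_mod_cast hN
  rcases lt_or_gt_of_ne hk with h | h
  · have : 1 + k * N ≤ -2 := by nlinarith
    omega
  · have : 4 ≤ 1 + k * N := by nlinarith
    omega

lemma cos_expo (N : ℕ) (k : ℤ) (s : ℝ) : Real.cos (expo N k * s) = Real.cos ((1 + k * N) * s) := by
  rw [expo_cast]
  rcases abs_choice (1 + (k : ℝ) * N) with h | h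
  · rw [h]
  · rw [h, neg_mul, Real.cos_neg]

/-- The near-identity eigenfunction on the disk with boundary weight `1 + h(N s)`. -/
theorem exists_diskFun {N : ℕ} (hN : 3 ≤ N) {h : ℝ → ℝ} {q : ℤ → ℝ}
    (hsym : ∀ l, q (-l) = q l) (hq : Summable fun l => |q l|) {ε : ℝ} (hqε : ∑' l, |q l| ≤ ε)
    (hε : ε ≤ 1 / 100) (hh : ∀ x : ℝ, HasSum (fun l : ℤ => q l * Real.cos (l * x)) (h x)) :
    ∃ (σ : ℝ) (f f' : ℂ → ℂ), 1 / 2 ≤ σ ∧ σ ≤ 2 ∧
      (∀ z ∈ closedBall (0 : ℂ) 1, HasDerivWithinAt f (f' z) (closedBall 0 1) z) ∧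
      ContinuousOn f' (closedBall 0 1) ∧
      (∀ z ∈ closedBall (0 : ℂ) 1, ‖f z - z‖ ≤ 4 * ε) ∧
      (∀ z ∈ closedBall (0 : ℂ) 1, ‖f' z - 1‖ ≤ 4 * ε) ∧
      (∀ s : ℝ, (Complex.exp (s * Complex.I) * f' (Complex.exp (s * Complex.I))).re
        = σ * (1 + h (N * s)) * (f (Complex.exp (s * Complex.I))).re) := by
  obtain ⟨σ, c, hc0, hσ1, hσ2, heq, hs, hη⟩ := exists_eigen (n := fun k => (expo N k : ℝ))
    (by simp [expo_zero]) (fun k hk => by exact_mod_cast two_le_expo hN hk) hq hqε hε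
  have hcs := X1_summable c
  have hmc : Summable fun k => (expo N k : ℝ) * |c k| := by
    have : (fun k => (expo N k : ℝ) * |c k|)
        = Function.update (fun k => if k = 0 then 0 else (expo N k : ℝ) * |c k|) 0 1 := by
      ext k
      by_cases hk : k = 0
      · subst hk; simp [expo_zero, hc0]
      · simp [hk]
    rw [this]
    exact hs.update 0 1
  have hm0 := expo_zero N
  refine ⟨σ, FS c (expo N), FS' c (expo N), hσ1, hσ2, fun z hz => FS_hasDerivWithinAt hcs hmc hz,
    FS'_continuousOn hmc, fun z hz => FS_close hcs hc0 hm0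
      (fun k hk => by have := two_le_expo hN hk; omega) hs hη (mem_closedBall_zero_iff.mp hz),
    fun z hz => FS'_close hc0 hm0 hmc hs hη (mem_closedBall_zero_iff.mp hz), fun s => ?_⟩
  set z : ℂ := Complex.exp (s * Complex.I) with hzdef
  have hz : ‖z‖ = 1 := Complex.norm_exp_ofReal_mul_I s
  have hpow : ∀ n : ℕ, (z ^ n).re = Real.cos (n * s) := by
    intro n
    rw [hzdef, ← Complex.exp_nat_mul]
    have : (n : ℂ) * (s * Complex.I) = ((n * s : ℝ) : ℂ) * Complex.I := by push_cast; ring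
    rw [this, Complex.exp_ofReal_mul_I_re]
  -- real part of f
  have hF : HasSum (fun k : ℤ => c k * Real.cos ((1 + k * N) * s)) (FS c (expo N) z).re := by
    have s1 : Summable fun k => (c k : ℂ) * z ^ expo N k :=
      .of_norm_bounded hcs fun k => FS_term_le k hz.le
    refine (Complex.hasSum_re s1.hasSum).congr_fun fun k => ?_
    rw [Complex.re_ofReal_mul, hpow, cos_expo]
  -- real part of z f'
  have hF' : HasSum (fun k : ℤ => expo N k * c k * Real.cos ((1 + k * N) * s))
      (z * FS' c (expo N) z).re := by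
    have s1 : Summable fun k => (c k : ℂ) * (expo N k * z ^ (expo N k - 1)) :=
      .of_norm_bounded hmc fun k => FS'_term_le k hz.le
    refine (Complex.hasSum_re (s1.hasSum.mul_left z)).congr_fun fun k => ?_
    rcases Nat.eq_zero_or_pos (expo N k) with h0 | hpos
    · simp [h0]
    · have e : z * ((c k : ℂ) * (expo N k * z ^ (expo N k - 1)))
          = ((expo N k * c k : ℝ) : ℂ) * z ^ expo N k := by
        obtain ⟨j, hj⟩ := Nat.exists_eq_succ_of_ne_zero hpos.ne'
        rw [hj]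
        simp only [Nat.succ_eq_add_one, Nat.add_sub_cancel]
        push_cast; ring
      rw [e, Complex.re_ofReal_mul, hpow, cos_expo]
  -- evaluation functionals
  have hexp : ∀ k : ℤ, (z * Complex.exp (k * ((N * s : ℝ) : ℂ) * Complex.I)).re
      = Real.cos ((1 + k * N) * s) := by
    intro k
    rw [hzdef, ← Complex.exp_add]
    have : (s : ℂ) * Complex.I + k * ((N * s : ℝ) : ℂ) * Complex.I
        = (((1 + k * N) * s : ℝ) : ℂ) * Complex.I := by push_cast; ring
    rw [this, Complex.exp_ofReal_mul_I_re]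
  have hre : ∀ b : X1, HasSum (fun k : ℤ => b k * Real.cos ((1 + k * N) * s))
      (z * evL (N * s) b).re := by
    intro b
    refine (Complex.hasSum_re ((evL_hasSum (N * s) b).mul_left z)).congr_fun fun k => ?_
    rw [← mul_assoc, mul_comm z, mul_assoc, Complex.re_ofReal_mul, hexp]
  have e1 : (z * evL (N * s) c).re = (FS c (expo N) z).re := (hre c).unique hF
  have hconv := evL_conv hq (N * s) c (hasSum_exp_of_even hq hsym (hh (N * s)))
  have e2 : (z * evL (N * s) (convL q c)).re = h (N * s) * (FS c (expo N) z).re := by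
    rw [hconv, ← mul_assoc, mul_comm z, mul_assoc, Complex.re_ofReal_mul, e1]
  have hsum : HasSum (fun k : ℤ => expo N k * c k * Real.cos ((1 + k * N) * s))
      (σ * ((FS c (expo N) z).re + h (N * s) * (FS c (expo N) z).re)) := by
    have h1 := ((hre c).add (hre (convL q c))).mul_left σ
    rw [e1, e2] at h1
    refine h1.congr_fun fun k => ?_
    rw [heq k]; ring
  rw [hF'.unique hsum]
  ring

end Pool.Agent.Helper49.Steklov
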