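import Mathlib

/-!
The Banach space `ℓ¹(ℤ)` of real sequences, shifts, convolution operators, and a perturbation
lemma proved with the contraction principle.
-/

open Filter Topology
open scoped ENNReal NNReal

namespace Pool.Agent.Helper49.Steklov

/-- the space `ℓ¹(ℤ, ℝ)` -/
abbrev X1 : Type := lp (fun _ : ℤ => ℝ) 1

lemma one_toReal_pos : 0 < (1 : ℝ≥0∞).toReal := by norm_num

lemma X1_norm (b : X1) : ‖b‖ = ∑' k, |b k| := by
  rw [lp.norm_eq_tsum_rpow one_toReal_pos b]
  simp

lemma X1_summable (b : X1) : Summable fun k => |b k| := by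
  have h := (lp.hasSum_norm one_toReal_pos b).summable
  simpa using h

lemma X1_hasSum (b : X1) : HasSum (fun k => |b k|) ‖b‖ := by
  rw [X1_norm]; exact (X1_summable b).hasSum

/-- build an element of `ℓ¹` -/
def mk1 (f : ℤ → ℝ) (h : Summable fun k => |f k|) : X1 :=
  ⟨f, memℓp_gen (by simpa using h)⟩

lemma mk1_apply (f : ℤ → ℝ) (h : Summable fun k => |f k|) (k : ℤ) : mk1 f h k = f k := rfl

lemma mk1_norm (f : ℤ → ℝ) (h : Summable fun k => |f k|) : ‖mk1 f h‖ = ∑' k, |f k| := X1_norm _

lemma diag_summable {β : ℤ → ℝ} {K : ℝ} (hβ : ∀ k, |β k| ≤ K) (b : X1) :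
    Summable fun k => |β k * b k| :=
  Summable.of_nonneg_of_le (fun _ => abs_nonneg _)
    (fun k => by rw [abs_mul]; exact mul_le_mul_of_nonneg_right (hβ k) (abs_nonneg _))
    ((X1_summable b).mul_left K)

lemma shift_summable (l : ℤ) (b : X1) : Summable fun k => |b (k - l)| :=
  (Equiv.subRight l).summable_iff.mpr (X1_summable b)

/-- diagonal operators -/
noncomputable def diagL (β : ℤ → ℝ) (K : ℝ) (hβ : ∀ k, |β k| ≤ K) : X1 →L[ℝ] X1 :=
  LinearMap.mkContinuous
    { toFun := fun b => mk1 (fun k => β k * b k) (diag_summable hβ b)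
      map_add' := fun x y => by
        ext k
        show β k * ((x + y : X1) k) = β k * x k + β k * y k
        rw [lp.coeFn_add, Pi.add_apply, mul_add]
      map_smul' := fun c x => by
        ext k
        show β k * ((c • x : X1) k) = c * (β k * x k)
        rw [lp.coeFn_smul, Pi.smul_apply, smul_eq_mul]; ring } K
    (fun b => by
      show ‖mk1 (fun k => β k * b k) (diag_summable hβ b)‖ ≤ _
      rw [mk1_norm, X1_norm, ← tsum_mul_left]
      refine Summable.tsum_le_tsum (fun k => ?_) (diag_summable hβ b) ((X1_summable b).mul_left K)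
      rw [abs_mul]; exact mul_le_mul_of_nonneg_right (hβ k) (abs_nonneg _))

lemma diagL_apply (β : ℤ → ℝ) (K : ℝ) (hβ : ∀ k, |β k| ≤ K) (b : X1) (k : ℤ) :
    diagL β K hβ b k = β k * b k := rfl

lemma diagL_norm_le (β : ℤ → ℝ) {K : ℝ} (hK : 0 ≤ K) (hβ : ∀ k, |β k| ≤ K) (b : X1) :
    ‖diagL β K hβ b‖ ≤ K * ‖b‖ :=
  (ContinuousLinearMap.le_opNorm _ b).trans
    (mul_le_mul_of_nonneg_right (LinearMap.mkContinuous_norm_le _ hK _) (norm_nonneg _))

/-- shifts -/
noncomputable def shiftL (l : ℤ) : X1 →L[ℝ] X1 :=
  LinearMap.mkContinuous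
    { toFun := fun b => mk1 (fun k => b (k - l)) (shift_summable l b)
      map_add' := fun x y => by
        ext k
        show (x + y : X1) (k - l) = x (k - l) + y (k - l)
        rw [lp.coeFn_add, Pi.add_apply]
      map_smul' := fun c x => by
        ext k
        show (c • x : X1) (k - l) = c * (x (k - l))
        rw [lp.coeFn_smul, Pi.smul_apply, smul_eq_mul] } 1
    (fun b => by
      show ‖mk1 (fun k => b (k - l)) (shift_summable l b)‖ ≤ _
      rw [mk1_norm, X1_norm, one_mul]
      exact ((Equiv.subRight l).tsum_eq (fun k => |b k|)).le)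

lemma shiftL_apply (l : ℤ) (b : X1) (k : ℤ) : shiftL l b k = b (k - l) := rfl

lemma shiftL_norm_le (l : ℤ) : ‖shiftL l‖ ≤ 1 := LinearMap.mkContinuous_norm_le _ zero_le_one _

/-- convolution by a summable sequence -/
noncomputable def convL (q : ℤ → ℝ) : X1 →L[ℝ] X1 := ∑' l, q l • shiftL l

lemma summable_convL {q : ℤ → ℝ} (hq : Summable fun l => |q l|) :
    Summable fun l => q l • shiftL l := by
  refine Summable.of_norm_bounded hq fun l => ?_
  rw [norm_smul, Real.norm_eq_abs]
  exact mul_le_of_le_one_right (abs_nonneg _) (shiftL_norm_le l)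

lemma convL_norm_le {q : ℤ → ℝ} (hq : Summable fun l => |q l|) : ‖convL q‖ ≤ ∑' l, |q l| := by
  refine tsum_of_norm_bounded hq.hasSum fun l => ?_
  rw [norm_smul, Real.norm_eq_abs]
  exact mul_le_of_le_one_right (abs_nonneg _) (shiftL_norm_le l)

lemma convL_hasSum {q : ℤ → ℝ} (hq : Summable fun l => |q l|) (b : X1) :
    HasSum (fun l => q l • shiftL l b) (convL q b) := by
  have h := (summable_convL hq).hasSum
  have h2 := h.mapL (ContinuousLinearMap.apply ℝ X1 b)
  exact h2

/-- evaluation at a point of the circle (with frequency step `x`) -/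
noncomputable def evL (x : ℝ) : X1 →L[ℝ] ℂ :=
  LinearMap.mkContinuous
    { toFun := fun b => ∑' k : ℤ, (b k : ℂ) * Complex.exp (k * x * Complex.I)
      map_add' := fun b c => by
        rw [← Summable.tsum_add]
        · congr 1
          ext k
          rw [lp.coeFn_add, Pi.add_apply]
          push_cast; ring
        · refine Summable.of_norm_bounded (X1_summable b) fun k => ?_
          rw [norm_mul, Complex.norm_real, Real.norm_eq_abs]
          have : ‖Complex.exp (k * x * Complex.I)‖ = 1 := by
            have := Complex.norm_exp_ofReal_mul_I (k * x)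
            push_cast at this; exact this
          rw [this, mul_one]
        · refine Summable.of_norm_bounded (X1_summable c) fun k => ?_
          rw [norm_mul, Complex.norm_real, Real.norm_eq_abs]
          have : ‖Complex.exp (k * x * Complex.I)‖ = 1 := by
            have := Complex.norm_exp_ofReal_mul_I (k * x)
            push_cast at this; exact this
          rw [this, mul_one]
      map_smul' := fun r b => by
        simp only [RingHom.id_apply]
        rw [Complex.real_smul, ← tsum_mul_left]
        congr 1
        ext k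
        rw [lp.coeFn_smul, Pi.smul_apply, smul_eq_mul]
        push_cast; ring } 1
    (fun b => by
      rw [one_mul]
      refine tsum_of_norm_bounded (X1_hasSum b) fun k => ?_
      rw [norm_mul, Complex.norm_real, Real.norm_eq_abs]
      have : ‖Complex.exp (k * x * Complex.I)‖ = 1 := by
        have := Complex.norm_exp_ofReal_mul_I (k * x)
        push_cast at this; exact this
      rw [this, mul_one])

lemma evL_hasSum (x : ℝ) (b : X1) :
    HasSum (fun k : ℤ => (b k : ℂ) * Complex.exp (k * x * Complex.I)) (evL x b) := by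
  have : Summable (fun k : ℤ => (b k : ℂ) * Complex.exp (k * x * Complex.I)) := by
    refine Summable.of_norm_bounded (X1_summable b) fun k => ?_
    rw [norm_mul, Complex.norm_real, Real.norm_eq_abs]
    have : ‖Complex.exp (k * x * Complex.I)‖ = 1 := by
      have := Complex.norm_exp_ofReal_mul_I (k * x)
      push_cast at this; exact this
    rw [this, mul_one]
  exact this.hasSum

lemma evL_shift (x : ℝ) (l : ℤ) (b : X1) :
    evL x (shiftL l b) = Complex.exp (l * x * Complex.I) * evL x b := by
  have h1 := evL_hasSum x (shiftL l b)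
  have h2 := (evL_hasSum x b).mul_left (Complex.exp (l * x * Complex.I))
  have h3 := (Equiv.subRight l).hasSum_iff.mpr h2
  refine h1.unique (h3.congr_fun fun k => ?_)
  simp only [Function.comp, Equiv.subRight_apply, shiftL_apply]
  have : Complex.exp (k * x * Complex.I)
      = Complex.exp (l * x * Complex.I) * Complex.exp (((k - l : ℤ) : ℂ) * x * Complex.I) := by
    rw [← Complex.exp_add]; congr 1; push_cast; ring
  rw [this]; ring

lemma evL_conv {q : ℤ → ℝ} (hq : Summable fun l => |q l|) (x : ℝ) (b : X1) {S : ℂ}
    (hS : HasSum (fun l : ℤ => (q l : ℂ) * Complex.exp (l * x * Complex.I)) S) :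
    evL x (convL q b) = S * evL x b := by
  have h1 := (convL_hasSum hq b).mapL (evL x)
  have h2 := hS.mul_right (evL x b)
  refine h1.unique (h2.congr_fun fun l => ?_)
  rw [map_smul, evL_shift, Complex.real_smul]
  ring

end Pool.Agent.Helper49.Steklov
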