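import Pool.Agent.Helper49.Steklov.Ell1

/-!
Perturbation lemma: existence of an eigenvector near the unit vector.
-/

open Filter Topology
open scoped ENNReal NNReal

namespace Pool.Agent.Helper49.Steklov

lemma delta_summable : Summable fun k : ℤ => |(if k = 0 then (1 : ℝ) else 0)| := by
  refine summable_of_ne_finset_zero (s := {0}) fun k hk => ?_
  have : k ≠ 0 := by simpa using hk
  simp [this]

/-- the unit vector -/
noncomputable def del : X1 := mk1 (fun k : ℤ => if k = 0 then (1 : ℝ) else 0) delta_summable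

lemma del_apply (k : ℤ) : del k = if k = 0 then 1 else 0 := rfl

lemma del_norm : ‖del‖ = 1 := by
  rw [del, mk1_norm, tsum_eq_single 0]
  · simp
  · intro k hk; simp [hk]

lemma abs_coord_le (b : X1) (k : ℤ) : |b k| ≤ ‖b‖ := lp.norm_apply_le_norm one_ne_zero b k

lemma exists_eigen {n : ℤ → ℝ} (hn0 : n 0 = 1) (hn : ∀ k, k ≠ 0 → 2 ≤ n k) {q : ℤ → ℝ}
    (hq : Summable fun l => |q l|) {ε : ℝ} (hqε : ∑' l, |q l| ≤ ε) (hε : ε ≤ 1 / 100) :
    ∃ (σ : ℝ) (c : X1), c 0 = 1 ∧ 1 / 2 ≤ σ ∧ σ ≤ 2 ∧
      (∀ k, n k * c k = σ * (c k + convL q c k)) ∧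
      (Summable fun k => if k = 0 then 0 else n k * |c k|) ∧
      ∑' k, (if k = 0 then 0 else n k * |c k|) ≤ 4 * ε := by
  have hε0 : 0 ≤ ε := (tsum_nonneg fun l => abs_nonneg (q l)).trans hqε
  have hM : ∀ b : X1, ‖convL q b‖ ≤ ε * ‖b‖ := fun b =>
    ((convL q).le_opNorm b).trans
      (mul_le_mul_of_nonneg_right ((convL_norm_le hq).trans hqε) (norm_nonneg _))
  let β : ℤ → ℝ := fun k => if k = 0 then 0 else 1 / n k
  have hβ : ∀ k, |β k| ≤ 1 / 2 := by
    intro k
    simp only [β]
    split_ifs with hk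
    · simp
    · have h2 := hn k hk
      rw [abs_of_pos (by positivity)]
      exact one_div_le_one_div_of_le (by norm_num) h2
  let T : X1 →L[ℝ] X1 := diagL β (1 / 2) hβ
  have hT : ∀ b : X1, ‖T b‖ ≤ 1 / 2 * ‖b‖ := diagL_norm_le β (by norm_num) hβ
  let μ : X1 → ℝ := fun b => 1 + (convL q (del + b)) 0
  let Φ : X1 → X1 := fun b => (μ b)⁻¹ • T (b + convL q (del + b))
  have hx : ∀ b : X1, ‖b‖ ≤ 1 / 2 → ‖del + b‖ ≤ 3 / 2 := by
    intro b hb
    have := norm_add_le del b
    rw [del_norm] at this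
    linarith
  have hμ : ∀ b : X1, ‖b‖ ≤ 1 / 2 → |μ b - 1| ≤ 3 / 200 := by
    intro b hb
    have h1 : μ b - 1 = (convL q (del + b)) 0 := by simp only [μ]; ring
    rw [h1]
    have h2 := (abs_coord_le (convL q (del + b)) 0).trans (hM (del + b))
    have h3 := hx b hb
    have h4 := norm_nonneg (del + b)
    nlinarith
  have hμl : ∀ b : X1, ‖b‖ ≤ 1 / 2 → 197 / 200 ≤ μ b := by
    intro b hb; have := (abs_le.mp (hμ b hb)).1; linarith
  have hμu : ∀ b : X1, ‖b‖ ≤ 1 / 2 → μ b ≤ 203 / 200 := by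
    intro b hb; have := (abs_le.mp (hμ b hb)).2; linarith
  have hinv : ∀ b : X1, ‖b‖ ≤ 1 / 2 → (μ b)⁻¹ ≤ 200 / 197 := by
    intro b hb
    have h1 := hμl b hb
    rw [inv_le_comm₀ (by linarith) (by norm_num)]
    norm_num
    linarith
  have hinv0 : ∀ b : X1, ‖b‖ ≤ 1 / 2 → 0 < (μ b)⁻¹ := by
    intro b hb; have := hμl b hb; exact inv_pos.mpr (by linarith)
  have hΦnorm : ∀ b : X1, ‖b‖ ≤ 1 / 2 →
      ‖Φ b‖ ≤ 200 / 197 * (1 / 2 * (‖b‖ + ε * (1 + ‖b‖))) := by
    intro b hb
    simp only [Φ]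
    rw [norm_smul, Real.norm_eq_abs, abs_of_pos (hinv0 b hb)]
    refine mul_le_mul (hinv b hb) ?_ (norm_nonneg _) (by norm_num)
    refine (hT _).trans (mul_le_mul_of_nonneg_left ?_ (by norm_num))
    refine (norm_add_le _ _).trans (add_le_add le_rfl ((hM _).trans ?_))
    refine mul_le_mul_of_nonneg_left ?_ hε0
    have := norm_add_le del b
    rwa [del_norm] at this
  have hmaps : Set.MapsTo Φ (Metric.closedBall 0 (1 / 2)) (Metric.closedBall 0 (1 / 2)) := by
    intro b hb
    rw [mem_closedBall_zero_iff] at hb ⊢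
    refine (hΦnorm b hb).trans ?_
    have := norm_nonneg b
    nlinarith
  have hlip : ∀ b ∈ Metric.closedBall (0 : X1) (1 / 2), ∀ b' ∈ Metric.closedBall (0 : X1) (1 / 2),
      ‖Φ b - Φ b'‖ ≤ 3 / 5 * ‖b - b'‖ := by
    intro b hb b' hb'
    rw [mem_closedBall_zero_iff] at hb hb'
    have e : Φ b - Φ b' = (μ b)⁻¹ • T ((b - b') + convL q (b - b'))
        + ((μ b)⁻¹ - (μ b')⁻¹) • T (b' + convL q (del + b')) := by
      simp only [Φ]
      have e1 : b + convL q (del + b) = ((b - b') + convL q (b - b')) + (b' + convL q (del + b')) := by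
        have : del + b = (b - b') + (del + b') := by abel
        rw [this, map_add]
        abel
      rw [e1, map_add, smul_add, sub_smul]
      abel
    rw [e]
    have hd := norm_nonneg (b - b')
    have h1 : ‖(μ b)⁻¹ • T ((b - b') + convL q (b - b'))‖ ≤ 200 / 197 * (1 / 2 * (101 / 100 * ‖b - b'‖)) := by
      rw [norm_smul, Real.norm_eq_abs, abs_of_pos (hinv0 b hb)]
      refine mul_le_mul (hinv b hb) ?_ (norm_nonneg _) (by norm_num)
      refine (hT _).trans (mul_le_mul_of_nonneg_left ?_ (by norm_num))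
      have h2 := norm_add_le (b - b') (convL q (b - b'))
      have h3 := hM (b - b')
      nlinarith
    have h2 : |(μ b)⁻¹ - (μ b')⁻¹| ≤ 2 / 100 * ‖b - b'‖ := by
      have hb1 := hμl b hb
      have hb2 := hμl b' hb'
      have e2 : (μ b)⁻¹ - (μ b')⁻¹ = (μ b' - μ b) / (μ b * μ b') := by
        field_simp
      have e3 : μ b' - μ b = (convL q (b' - b)) 0 := by
        simp only [μ]
        have : del + b' = (b' - b) + (del + b) := by abel
        rw [this, map_add, lp.coeFn_add, Pi.add_apply]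
        ring
      have h4 : |μ b' - μ b| ≤ ε * ‖b - b'‖ := by
        rw [e3, norm_sub_rev b b']
        exact (abs_coord_le _ 0).trans (hM _)
      have h5 : (38 / 40 : ℝ) ≤ μ b * μ b' := by nlinarith
      rw [e2, abs_div, abs_of_pos (show 0 < μ b * μ b' by linarith), div_le_iff₀ (by linarith)]
      nlinarith
    have h3 : ‖T (b' + convL q (del + b'))‖ ≤ 1 := by
      refine (hT _).trans ?_
      have h4 := norm_add_le b' (convL q (del + b'))
      have h5 := hM (del + b')
      have h6 := hx b' hb'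
      have h7 := norm_nonneg (del + b')
      nlinarith
    calc ‖(μ b)⁻¹ • T ((b - b') + convL q (b - b'))
        + ((μ b)⁻¹ - (μ b')⁻¹) • T (b' + convL q (del + b'))‖
        ≤ 200 / 197 * (1 / 2 * (101 / 100 * ‖b - b'‖)) + 2 / 100 * ‖b - b'‖ * 1 := by
          refine (norm_add_le _ _).trans (add_le_add h1 ?_)
          rw [norm_smul, Real.norm_eq_abs]
          exact mul_le_mul h2 h3 (norm_nonneg _) (by positivity)
      _ ≤ 3 / 5 * ‖b - b'‖ := by nlinarith
  have hcontr : ContractingWith (3 / 5 : ℝ≥0) (hmaps.restrict Φ _ _) := by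
    refine ⟨by norm_num [← NNReal.coe_lt_coe], LipschitzWith.of_dist_le_mul fun x y => ?_⟩
    rw [Subtype.dist_eq, dist_eq_norm, Subtype.dist_eq, dist_eq_norm]
    have := hlip x x.2 y y.2
    simpa using this
  obtain ⟨b, hb, hfix, -⟩ := ContractingWith.exists_fixedPoint'
    (Metric.isClosed_closedBall.isComplete) hmaps hcontr
    (x := 0) (Metric.mem_closedBall_self (by norm_num)) (edist_ne_top _ _)
  rw [mem_closedBall_zero_iff] at hb
  have hfix' : Φ b = b := hfix
  have hμb := hμl b hb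
  -- coordinates
  have hcoord : ∀ k, b k = (μ b)⁻¹ * (β k * (b k + convL q (del + b) k)) := by
    intro k
    have h1 : (Φ b) k = (μ b)⁻¹ * (β k * (b k + convL q (del + b) k)) := by
      simp only [Φ]
      rw [lp.coeFn_smul, Pi.smul_apply, smul_eq_mul]
      rfl
    rw [← h1, hfix']
  have hb0 : b 0 = 0 := by
    rw [hcoord 0]; simp [β]
  have hbn : ‖b‖ ≤ 2 * ε := by
    have h1 := hΦnorm b hb
    rw [hfix'] at h1
    nlinarith [norm_nonneg b]
  set c : X1 := del + b with hc
  have hcn : ‖c‖ ≤ 1 + 2 * ε := by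
    have := norm_add_le del b
    rw [del_norm] at this
    linarith
  have hc0 : c 0 = 1 := by
    rw [hc, lp.coeFn_add, Pi.add_apply, hb0, del_apply]; simp
  have hck : ∀ k, k ≠ 0 → c k = b k := by
    intro k hk
    rw [hc, lp.coeFn_add, Pi.add_apply, del_apply, if_neg hk, zero_add]
  have heq : ∀ k, n k * c k = (μ b)⁻¹ * (c k + convL q c k) := by
    intro k
    by_cases hk : k = 0
    · subst hk
      rw [hn0, hc0, mul_one]
      have : (1 : ℝ) + convL q c 0 = μ b := rfl
      rw [this, inv_mul_cancel₀ (by linarith)]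
    · rw [hck k hk]
      have h1 := hcoord k
      have h2 : n k ≠ 0 := by have := hn k hk; linarith
      have h3 : β k = 1 / n k := by simp only [β]; rw [if_neg hk]
      rw [h3] at h1
      calc n k * b k = n k * ((μ b)⁻¹ * (1 / n k * (b k + convL q c k))) := by rw [← h1]
        _ = (μ b)⁻¹ * (b k + convL q c k) := by field_simp
  refine ⟨(μ b)⁻¹, c, hc0, ?_, ?_, heq, ?_⟩
  · have h1 := hμu b hb
    rw [le_inv_comm₀ (by norm_num) (by linarith)]
    norm_num
    linarith
  · exact (hinv b hb).trans (by norm_num)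
  · -- weighted summability
    have hbound : ∀ k, (if k = 0 then 0 else n k * |c k|) ≤ 200 / 197 * (|b k| + |convL q c k|) := by
      intro k
      split_ifs with hk
      · positivity
      · have h1 := heq k
        have h2 : n k * |c k| = |n k * c k| := by
          rw [abs_mul, abs_of_nonneg (show 0 ≤ n k by have := hn k hk; linarith)]
        rw [h2, h1, abs_mul, abs_of_pos (hinv0 b hb), hck k hk]
        exact mul_le_mul (hinv b hb) (abs_add_le _ _) (abs_nonneg _) (by norm_num)
    have hnn : ∀ k, 0 ≤ (if k = 0 then 0 else n k * |c k|) := by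
      intro k
      split_ifs with hk
      · exact le_rfl
      · have := hn k hk; positivity
    have hs : Summable fun k => 200 / 197 * (|b k| + |convL q c k|) :=
      ((X1_summable b).add (X1_summable _)).mul_left _
    refine ⟨Summable.of_nonneg_of_le hnn hbound hs, ?_⟩
    calc ∑' k, (if k = 0 then 0 else n k * |c k|)
        ≤ ∑' k, 200 / 197 * (|b k| + |convL q c k|) :=
          (Summable.of_nonneg_of_le hnn hbound hs).tsum_le_tsum hbound hs
      _ = 200 / 197 * (‖b‖ + ‖convL q c‖) := by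
          rw [tsum_mul_left, (X1_summable b).tsum_add (X1_summable _), X1_norm, X1_norm]
      _ ≤ 4 * ε := by
          have h1 := hM c
          nlinarith [norm_nonneg c]

end Pool.Agent.Helper49.Steklov
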