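import Mathlib

/-!
Absolutely convergent cosine expansions of even periodic C² functions.
-/

open Filter Topology MeasureTheory
open scoped Real

namespace Pool.Agent.Helper49.Steklov

/-- the weights `1, 1/l²` -/
noncomputable def bnd (l : ℤ) : ℝ := if l = 0 then 1 else 1 / (l : ℝ) ^ 2

lemma bnd_nonneg (l : ℤ) : 0 ≤ bnd l := by
  unfold bnd; split_ifs <;> positivity

lemma summable_bnd : Summable bnd := by
  have h : Summable (fun l : ℤ => 1 / (l : ℝ) ^ 2) := Real.summable_one_div_int_pow.mpr (by norm_num)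
  have h2 : bnd = Function.update (fun l : ℤ => 1 / (l : ℝ) ^ 2) 0 1 := by
    ext l
    unfold bnd
    by_cases hl : l = 0
    · subst hl; simp
    · simp [hl]
  rw [h2]
  exact h.update 0 1

/-- the constant `∑ bnd` -/
noncomputable def CF : ℝ := ∑' l, bnd l

lemma one_le_CF : 1 ≤ CF := by
  have h := summable_bnd.le_tsum 0 (fun j _ => bnd_nonneg j)
  have h2 : bnd 0 = 1 := by simp [bnd]
  rwa [h2] at h

lemma fourier_complex {h h1 h2 : ℝ → ℝ} {B : ℝ} (hd1 : ∀ x, HasDerivAt h (h1 x) x)
    (hd2 : ∀ x, HasDerivAt h1 (h2 x) x) (hc : Continuous h2)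
    (hper : ∀ x, h (x + 2 * π) = h x) (hB0 : ∀ x, |h x| ≤ B) (hB2 : ∀ x, |h2 x| ≤ B) :
    ∃ c : ℤ → ℂ, (∀ l, ‖c l‖ ≤ bnd l * B) ∧
      ∀ x : ℝ, HasSum (fun l : ℤ => c l * Complex.exp (l * x * Complex.I)) (h x) := by
  have hpi := Real.pi_pos
  have hab : (0 : ℝ) < 2 * π := by positivity
  have hT : Fact (0 < 2 * π - 0) := ⟨by linarith⟩
  have hch : Continuous h := continuous_iff_continuousAt.mpr fun x => (hd1 x).continuousAt
  have hch1 : Continuous h1 := continuous_iff_continuousAt.mpr fun x => (hd2 x).continuousAt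
  have hper1 : ∀ x, h1 (x + 2 * π) = h1 x := by
    intro x
    have e1 : HasDerivAt (fun x => h (x + 2 * π)) (h1 (x + 2 * π)) x := by
      simpa using (hd1 (x + 2 * π)).comp_add_const x (2 * π)
    have e2 : (fun x => h (x + 2 * π)) = h := funext hper
    rw [e2] at e1
    exact e1.unique (hd1 x)
  let H : ℝ → ℂ := fun x => (h x : ℂ)
  have hH : Continuous H := Complex.continuous_ofReal.comp hch
  have hHper : Function.Periodic H (2 * π - 0) := by
    intro x
    simp only [sub_zero, H, hper]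
  let F0 : AddCircle (2 * π - 0) → ℂ := hHper.lift
  have hF0 : Continuous F0 := by
    apply continuous_coinduced_dom.mpr
    exact hH
  let F : C(AddCircle (2 * π - 0), ℂ) := ⟨F0, hF0⟩
  have hF : ∀ x : ℝ, F (x : AddCircle (2 * π - 0)) = H x := fun x => hHper.lift_coe x
  have hcoef : ∀ n : ℤ, fourierCoeff F n = fourierCoeffOn hab H n := by
    intro n
    rw [fourierCoeffOn_eq_integral, fourierCoeff_eq_intervalIntegral F n 0]
    simp only [hF, zero_add, sub_zero]
  -- integrate by parts twice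
  have hparts : ∀ n : ℤ, n ≠ 0 → fourierCoeffOn hab H n
      = -(1 / (n : ℂ) ^ 2) * fourierCoeffOn hab (fun x => (h2 x : ℂ)) n := by
    intro n hn
    have hn' : (n : ℂ) ≠ 0 := by exact_mod_cast hn
    have hpi' : (π : ℂ) ≠ 0 := by exact_mod_cast hpi.ne'
    have e1 := fourierCoeffOn_of_hasDerivAt hab (f := H) (f' := fun x => (h1 x : ℂ)) hn
      (fun x _ => (hd1 x).ofReal_comp)
      ((Complex.continuous_ofReal.comp hch1).intervalIntegrable _ _)
    have e2 := fourierCoeffOn_of_hasDerivAt hab (f := fun x => (h1 x : ℂ))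
      (f' := fun x => (h2 x : ℂ)) hn
      (fun x _ => (hd2 x).ofReal_comp)
      ((Complex.continuous_ofReal.comp hc).intervalIntegrable _ _)
    have p1 : H (2 * π) - H 0 = 0 := by
      have := hper 0
      rw [zero_add] at this
      simp only [H, this, sub_self]
    have p2 : ((h1 (2 * π) : ℂ)) - (h1 0 : ℂ) = 0 := by
      have := hper1 0
      rw [zero_add] at this
      rw [this, sub_self]
    rw [p1, mul_zero, zero_sub] at e1
    rw [p2, mul_zero, zero_sub] at e2
    rw [e1, e2]
    push_cast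
    field_simp
    rw [Complex.I_sq]
    ring
  have hnorm : ∀ (f : ℝ → ℝ), (∀ x, |f x| ≤ B) → ∀ n : ℤ,
      ‖fourierCoeffOn hab (fun x => (f x : ℂ)) n‖ ≤ B := by
    intro f hf n
    rw [fourierCoeffOn_eq_integral]
    have hi : ‖∫ x in (0 : ℝ)..(2 * π), fourier (-n) (x : AddCircle (2 * π - 0)) • (f x : ℂ)‖
        ≤ B * |2 * π - 0| := by
      apply intervalIntegral.norm_integral_le_of_norm_le_const
      intro x _
      rw [norm_smul, Complex.norm_real]
      have h1 : ‖(fourier (-n)) (x : AddCircle (2 * π - 0))‖ = 1 := by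
        rw [fourier_apply]; exact Circle.norm_coe _
      rw [h1, one_mul]
      exact hf x
    rw [norm_smul]
    have habs : |2 * π - 0| = 2 * π := by rw [sub_zero, abs_of_pos hab]
    rw [habs] at hi
    calc ‖(1 / (2 * π - 0) : ℝ)‖ * ‖∫ x in (0 : ℝ)..(2 * π), fourier (-n) (x : AddCircle (2 * π - 0)) • (f x : ℂ)‖
        ≤ (1 / (2 * π)) * (B * (2 * π)) := by
          refine mul_le_mul ?_ hi (norm_nonneg _) (by positivity)
          rw [sub_zero, Real.norm_eq_abs, abs_of_pos (by positivity)]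
      _ = B := by field_simp
  have hbound : ∀ l : ℤ, ‖fourierCoeff F l‖ ≤ bnd l * B := by
    intro l
    rw [hcoef]
    unfold bnd
    split_ifs with hl
    · rw [one_mul]; exact hnorm h hB0 l
    · rw [hparts l hl, norm_mul, norm_neg, norm_div, norm_one, norm_pow, Complex.norm_intCast]
      have : |(l : ℝ)| ^ 2 = (l : ℝ) ^ 2 := sq_abs _
      rw [this]
      exact mul_le_mul_of_nonneg_left (hnorm h2 hB2 l) (by positivity)
  have hsum : Summable (fourierCoeff F) :=
    Summable.of_norm_bounded (summable_bnd.mul_right B) hbound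
  refine ⟨fourierCoeff F, hbound, fun x => ?_⟩
  have := has_pointwise_sum_fourier_series_of_summable hsum (x : AddCircle (2 * π - 0))
  rw [hF] at this
  refine this.congr_fun fun l => ?_
  rw [smul_eq_mul, fourier_coe_apply]
  congr 2
  have hpi' : (π : ℂ) ≠ 0 := by exact_mod_cast hpi.ne'
  push_cast
  field_simp
  ring

lemma fourier_real {h h1 h2 : ℝ → ℝ} {B : ℝ} (hd1 : ∀ x, HasDerivAt h (h1 x) x)
    (hd2 : ∀ x, HasDerivAt h1 (h2 x) x) (hc : Continuous h2)
    (hper : ∀ x, h (x + 2 * π) = h x) (heven : ∀ x, h (-x) = h x)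
    (hB0 : ∀ x, |h x| ≤ B) (hB2 : ∀ x, |h2 x| ≤ B) :
    ∃ q : ℤ → ℝ, (∀ l, q (-l) = q l) ∧ Summable (fun l => |q l|) ∧ ∑' l, |q l| ≤ CF * B ∧
      ∀ x : ℝ, HasSum (fun l : ℤ => q l * Real.cos (l * x)) (h x) := by
  obtain ⟨c, hcb, hcs⟩ := fourier_complex hd1 hd2 hc hper hB0 hB2
  have hbneg : ∀ l, bnd (-l) = bnd l := by
    intro l; unfold bnd; simp
  let q : ℤ → ℝ := fun l => ((c l).re + (c (-l)).re) / 2
  have hqb : ∀ l, |q l| ≤ bnd l * B := by
    intro l
    have e1 := (Complex.abs_re_le_norm (c l)).trans (hcb l)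
    have e2 := (Complex.abs_re_le_norm (c (-l))).trans (hcb (-l))
    rw [hbneg] at e2
    have := abs_add_le (c l).re (c (-l)).re
    simp only [q]
    rw [abs_div, abs_two]
    linarith
  have hsq : Summable (fun l => |q l|) :=
    Summable.of_nonneg_of_le (fun l => abs_nonneg _) hqb (summable_bnd.mul_right B)
  refine ⟨q, fun l => ?_, hsq, ?_, fun x => ?_⟩
  · simp only [q, neg_neg]; ring
  · calc ∑' l, |q l| ≤ ∑' l, bnd l * B := hsq.tsum_le_tsum hqb (summable_bnd.mul_right B)
      _ = CF * B := tsum_mul_right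
  · -- h x = ∑ Re(c_l) cos (l x)
    have s1 := hcs x
    have s2 := hcs (-x)
    rw [heven] at s2
    have s3 := (s1.add s2).mul_left (1 / 2 : ℂ)
    have e1 : (1 / 2 : ℂ) * ((h x : ℂ) + (h x : ℂ)) = (h x : ℂ) := by ring
    rw [e1] at s3
    have e2 : (fun l : ℤ => (1 / 2 : ℂ) * (c l * Complex.exp (l * x * Complex.I)
        + c l * Complex.exp (l * ((-x : ℝ) : ℂ) * Complex.I)))
        = fun l : ℤ => c l * ((Real.cos (l * x) : ℝ) : ℂ) := by
      ext l
      push_cast
      rw [Complex.cos]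
      have : (l : ℂ) * -(x : ℂ) * Complex.I = -((l : ℂ) * x) * Complex.I := by ring
      rw [this]
      ring
    rw [e2] at s3
    have s4 := Complex.hasSum_re s3
    have e3 : (fun l : ℤ => (c l * ((Real.cos (l * x) : ℝ) : ℂ)).re)
        = fun l : ℤ => (c l).re * Real.cos (l * x) := by
      ext l; rw [Complex.re_mul_ofReal]
    rw [e3, Complex.ofReal_re] at s4
    have s5 : HasSum (fun l : ℤ => (c (-l)).re * Real.cos (l * x)) (h x) := by
      have := (Equiv.neg ℤ).hasSum_iff.mpr s4
      refine this.congr_fun fun l => ?_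
      simp only [Function.comp, Equiv.neg_apply]
      congr 1
      rw [Int.cast_neg, neg_mul, Real.cos_neg]
    have s6 := (s4.add s5).mul_left (1 / 2 : ℝ)
    have e4 : (1 / 2 : ℝ) * (h x + h x) = h x := by ring
    rw [e4] at s6
    refine s6.congr_fun fun l => ?_
    simp only [q]; ring

end Pool.Agent.Helper49.Steklov
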