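import Pool.Agent.Helper49.Steklov.Maps

/-!
Estimates for one-dimensional Hausdorff measure.
-/

open Filter Topology Metric MeasureTheory Set
open scoped ENNReal NNReal Real

namespace Pool.Agent.Helper49.Steklov

/-- measure bound from an inverse Lipschitz estimate -/
lemma hm_le_of_antilip {X Y : Type*} [EMetricSpace X] [EMetricSpace Y] [MeasurableSpace X]
    [BorelSpace X] [MeasurableSpace Y] [BorelSpace Y] {f : X → Y} {W : Set X} {K : ℝ≥0}
    (h : ∀ x ∈ W, ∀ y ∈ W, edist x y ≤ K * edist (f x) (f y)) {S : Set Y}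
    (hS : ∀ x ∈ W, f x ∈ S) : μH[1] W ≤ K * μH[1] S := by
  classical
  rcases W.eq_empty_or_nonempty with rfl | hne
  · simp
  have : Nonempty X := ⟨hne.some⟩
  have hinj : InjOn f W := by
    intro x hx y hy hxy
    have := h x hx y hy
    rw [hxy, edist_self, mul_zero] at this
    exact edist_le_zero.mp this
  let g := Function.invFunOn f W
  have hg : ∀ x ∈ W, g (f x) = x := fun x hx => hinj.leftInvOn_invFunOn hx
  have hlip : LipschitzOnWith K g (f '' W) := by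
    rintro _ ⟨x, hx, rfl⟩ _ ⟨y, hy, rfl⟩
    rw [hg x hx, hg y hy]
    exact h x hx y hy
  have himg : g '' (f '' W) = W := by
    ext x
    constructor
    · rintro ⟨_, ⟨y, hy, rfl⟩, rfl⟩
      rwa [hg y hy]
    · intro hx
      exact ⟨f x, ⟨x, hx, rfl⟩, hg x hx⟩
  have h1 := hlip.hausdorffMeasure_image_le (d := 1) zero_le_one
  rw [himg, ENNReal.rpow_one] at h1
  refine h1.trans (mul_le_mul_right (measure_mono ?_) _)
  rintro _ ⟨x, hx, rfl⟩
  exact hS x hx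

/-- local inverse Lipschitz estimate for a strictly differentiable function -/
lemma exists_antilip_nhds {g : ℂ → ℂ} {z₀ g' : ℂ} (hg : HasStrictDerivAt g g' z₀) (hg' : g' ≠ 0) :
    ∃ r > 0, ∃ K : ℝ≥0, ∀ x ∈ ball z₀ r, ∀ y ∈ ball z₀ r, edist x y ≤ K * edist (g x) (g y) := by
  have h1 := hg.isLittleO
  have hpos : 0 < ‖g'‖ / 2 := by have := norm_pos_iff.mpr hg'; linarith
  have h2 := h1.def hpos
  rw [nhds_prod_eq] at h2
  obtain ⟨r, hr, h3⟩ := Metric.eventually_nhds_iff_ball.mp (by rwa [← nhds_prod_eq] at h2)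
  refine ⟨r, hr, (2 / ‖g'‖₊), fun x hx y hy => ?_⟩
  have h4 := h3 (x, y) (by
    rw [mem_ball, Prod.dist_eq, max_lt_iff]; exact ⟨hx, hy⟩)
  simp only [ContinuousLinearMap.toSpanSingleton_apply, smul_eq_mul] at h4
  have h5 : ‖g'‖ * ‖x - y‖ ≤ ‖g x - g y‖ + ‖g'‖ / 2 * ‖x - y‖ := by
    have e : (x - y) * g' = (g x - g y) - (g x - g y - (x - y) * g') := by ring
    have h6 : ‖(x - y) * g'‖ ≤ ‖g x - g y‖ + ‖g x - g y - (x - y) * g'‖ := by
      conv_lhs => rw [e]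
      exact norm_sub_le _ _
    rw [norm_mul, mul_comm] at h6
    linarith
  have h7 : ‖x - y‖ ≤ 2 / ‖g'‖ * ‖g x - g y‖ := by
    have hp := norm_pos_iff.mpr hg'
    rw [div_mul_eq_mul_div, le_div_iff₀ hp]
    linarith
  rw [edist_dist, edist_dist, dist_eq_norm, dist_eq_norm]
  have h8 : ((2 / ‖g'‖₊ : ℝ≥0) : ℝ≥0∞) = ENNReal.ofReal (2 / ‖g'‖) := by
    rw [← ENNReal.ofReal_coe_nnreal]
    simp
  rw [h8, ← ENNReal.ofReal_mul (by positivity)]
  exact ENNReal.ofReal_le_ofReal h7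

/-- A holomorphic self-map of the disk with nonvanishing derivative on the circle distorts
`H¹` of sets near the circle by a bounded factor. -/
lemma exists_distortion {g : ℂ → ℂ} (hg : ∀ z, ‖z‖ ≤ 1 → AnalyticAt ℂ g z)
    (hlt : ∀ z, ‖z‖ < 1 → ‖g z‖ < 1) (hd : ∀ z, ‖z‖ = 1 → deriv g z ≠ 0) :
    ∃ η : ℝ, 0 < η ∧ η < 1 ∧ ∃ K : ℝ≥0, ∀ S : Set ℂ,
      μH[1] {z : ℂ | ‖z‖ ≤ 1 ∧ g z ∈ S ∧ 1 - η ≤ ‖g z‖} ≤ K * μH[1] S := by
  classical
  have h1 : ∀ z ∈ sphere (0 : ℂ) 1, ∃ r > 0, ∃ K : ℝ≥0, ∀ x ∈ ball z r, ∀ y ∈ ball z r,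
      edist x y ≤ K * edist (g x) (g y) := by
    intro z hz
    have hz' : ‖z‖ = 1 := mem_sphere_zero_iff_norm.mp hz
    exact exists_antilip_nhds (hg z hz'.le).hasStrictDerivAt (hd z hz')
  choose! r hr K hK using h1
  obtain ⟨t, ht, hcov⟩ := (isCompact_sphere (0 : ℂ) 1).elim_nhds_subcover (fun z => ball z (r z))
    (fun z hz => ball_mem_nhds z (hr z hz))
  -- the remaining compact part
  let C : Set ℂ := closedBall 0 1 \ ⋃ x ∈ t, ball x (r x)
  have hC : IsCompact C := (isCompact_closedBall _ _).diff (isOpen_biUnion fun _ _ => isOpen_ball)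
  have hCint : ∀ z ∈ C, ‖z‖ < 1 := by
    intro z hz
    have h2 : ‖z‖ ≤ 1 := mem_closedBall_zero_iff.mp hz.1
    rcases h2.lt_or_eq with h | h
    · exact h
    · exact absurd (hcov (mem_sphere_zero_iff_norm.mpr h)) hz.2
  have hcont : ContinuousOn (fun z => ‖g z‖) C := fun z hz =>
    (hg z (hCint z hz).le).continuousAt.norm.continuousWithinAt
  obtain ⟨η, hη0, hη1, hη⟩ : ∃ η : ℝ, 0 < η ∧ η < 1 ∧ ∀ z ∈ C, ‖g z‖ < 1 - η := by
    rcases C.eq_empty_or_nonempty with he | hne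
    · refine ⟨1 / 2, by norm_num, by norm_num, fun z hz => ?_⟩
      rw [he] at hz; exact absurd hz (notMem_empty z)
    · obtain ⟨w, hw, hmax⟩ := hC.exists_isMaxOn hne hcont
      have h3 := hlt w (hCint w hw)
      have h4 := norm_nonneg (g w)
      refine ⟨(1 - ‖g w‖) / 2, by linarith, by linarith, fun z hz => ?_⟩
      have : ‖g z‖ ≤ ‖g w‖ := hmax hz
      linarith
  refine ⟨η, hη0, hη1, ∑ x ∈ t, K x, fun S => ?_⟩
  have hsub : {z : ℂ | ‖z‖ ≤ 1 ∧ g z ∈ S ∧ 1 - η ≤ ‖g z‖}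
      ⊆ ⋃ x ∈ t, {z : ℂ | z ∈ ball x (r x) ∧ g z ∈ S} := by
    rintro z ⟨hz1, hz2, hz3⟩
    by_cases hzC : z ∈ ⋃ x ∈ t, ball x (r x)
    · rw [mem_iUnion₂] at hzC ⊢
      obtain ⟨x, hx, hzx⟩ := hzC
      exact ⟨x, hx, hzx, hz2⟩
    · have := hη z ⟨mem_closedBall_zero_iff.mpr hz1, hzC⟩
      linarith
  calc μH[1] {z : ℂ | ‖z‖ ≤ 1 ∧ g z ∈ S ∧ 1 - η ≤ ‖g z‖}
      ≤ μH[1] (⋃ x ∈ t, {z : ℂ | z ∈ ball x (r x) ∧ g z ∈ S}) := measure_mono hsub
    _ ≤ ∑ x ∈ t, μH[1] {z : ℂ | z ∈ ball x (r x) ∧ g z ∈ S} := measure_biUnion_finset_le _ _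
    _ ≤ ∑ x ∈ t, (K x : ℝ≥0∞) * μH[1] S := by
        refine Finset.sum_le_sum fun x hx => ?_
        exact hm_le_of_antilip (fun a ha b hb => hK x (ht x hx) a ha.1 b hb.1) (fun a ha => ha.2)
    _ = ((∑ x ∈ t, K x : ℝ≥0) : ℝ≥0∞) * μH[1] S := by
        rw [← Finset.sum_mul]; push_cast; rfl

/-- roots: `H¹` of the preimage under the power map, in logarithmic coordinates -/
lemma hm_root_le {N : ℕ} (hN : 1 ≤ N) (S : Set ℂ) :
    μH[1] {z : ℂ | ‖z‖ ≤ 1 ∧ z ≠ 0 ∧ z ^ N ∈ S}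
      ≤ μH[1] {τ : ℂ | τ.re ≤ 0 ∧ |τ.im| ≤ π ∧ Complex.exp τ ∈ S} := by
  set L : Set ℂ := {τ : ℂ | τ.re ≤ 0 ∧ |τ.im| ≤ π ∧ Complex.exp τ ∈ S} with hL
  have hN0 : (N : ℂ) ≠ 0 := by exact_mod_cast (by omega : N ≠ 0)
  have hNR : (0 : ℝ) < N := by exact_mod_cast (by omega : 0 < N)
  let e : ℕ → ℂ → ℂ := fun l τ => Complex.exp ((τ + 2 * π * l * Complex.I) / N)
  have hlip : ∀ l, LipschitzOnWith (N : ℝ≥0)⁻¹ (e l) L := by
    intro l
    have hconv : Convex ℝ {τ : ℂ | τ.re ≤ 0} := convex_halfSpace_re_le 0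
    have h1 : LipschitzOnWith (N : ℝ≥0)⁻¹ (e l) {τ : ℂ | τ.re ≤ 0} := by
      apply hconv.lipschitzOnWith_of_nnnorm_hasDerivWithin_le
        (f' := fun τ => Complex.exp ((τ + 2 * π * l * Complex.I) / N) * (1 / N))
      · intro τ _
        have h2 : HasDerivAt (fun τ : ℂ => (τ + 2 * π * l * Complex.I) / N) (1 / N) τ :=
          ((hasDerivAt_id τ).add_const _).div_const _
        exact h2.cexp.hasDerivWithinAt
      · intro τ hτ
        rw [← NNReal.coe_le_coe, coe_nnnorm, norm_mul, Complex.norm_exp]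
        have h3 : ((τ + 2 * π * l * Complex.I) / N).re = τ.re / N := by
          have : (τ + 2 * π * l * Complex.I) / N
              = (τ + ((2 * π * l : ℝ) : ℂ) * Complex.I) / ((N : ℝ) : ℂ) := by push_cast; rfl
          rw [this, Complex.div_ofReal_re, Complex.add_re, Complex.re_ofReal_mul]
          simp
        rw [h3]
        have h4 : Real.exp (τ.re / N) ≤ 1 := by
          rw [Real.exp_le_one_iff]
          exact div_nonpos_of_nonpos_of_nonneg hτ hNR.le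
        have h5 : ‖(1 / (N : ℂ))‖ = (N : ℝ)⁻¹ := by
          rw [norm_div, norm_one, Complex.norm_natCast, one_div]
        rw [h5]
        push_cast
        exact mul_le_of_le_one_left (by positivity) h4
    exact h1.mono (fun τ hτ => hτ.1)
  have hcover : {z : ℂ | ‖z‖ ≤ 1 ∧ z ≠ 0 ∧ z ^ N ∈ S} ⊆ ⋃ l ∈ Finset.range N, e l '' L := by
    rintro z ⟨hz1, hz0, hzS⟩
    have hzN : z ^ N ≠ 0 := pow_ne_zero _ hz0
    let τ := Complex.log (z ^ N)
    have hexp : Complex.exp τ = z ^ N := Complex.exp_log hzN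
    have hτL : τ ∈ L := by
      refine ⟨?_, ?_, ?_⟩
      · rw [Complex.log_re]
        apply Real.log_nonpos (norm_nonneg _)
        rw [norm_pow]
        exact pow_le_one₀ (norm_nonneg _) hz1
      · rw [Complex.log_im]
        exact Complex.abs_arg_le_pi _
      · rw [hexp]; exact hzS
    -- z / exp (τ / N) is an N-th root of unity
    have hroot : (z / Complex.exp (τ / N)) ^ N = 1 := by
      rw [div_pow, ← Complex.exp_nat_mul]
      have : (N : ℂ) * (τ / N) = τ := by field_simp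
      rw [this, hexp, div_self hzN]
    have : NeZero N := ⟨by omega⟩
    obtain ⟨l, hl, hl2⟩ := (Complex.isPrimitiveRoot_exp N (by omega)).eq_pow_of_pow_eq_one hroot
    rw [mem_iUnion₂]
    refine ⟨l, Finset.mem_range.mpr hl, τ, hτL, ?_⟩
    simp only [e]
    rw [add_div, Complex.exp_add]
    have h6 : Complex.exp (2 * π * l * Complex.I / N) = Complex.exp (2 * π * Complex.I / N) ^ l := by
      rw [← Complex.exp_nat_mul]; congr 1; ring
    rw [h6, hl2]
    field_simp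
  calc μH[1] {z : ℂ | ‖z‖ ≤ 1 ∧ z ≠ 0 ∧ z ^ N ∈ S}
      ≤ μH[1] (⋃ l ∈ Finset.range N, e l '' L) := measure_mono hcover
    _ ≤ ∑ l ∈ Finset.range N, μH[1] (e l '' L) := measure_biUnion_finset_le _ _
    _ ≤ ∑ l ∈ Finset.range N, (((N : ℝ≥0)⁻¹ : ℝ≥0) : ℝ≥0∞) * μH[1] L := by
        refine Finset.sum_le_sum fun l _ => ?_
        have := (hlip l).hausdorffMeasure_image_le (d := 1) zero_le_one
        rwa [ENNReal.rpow_one] at this
    _ = μH[1] L := by
        rw [Finset.sum_const, Finset.card_range, nsmul_eq_mul, ← mul_assoc]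
        have : (N : ℝ≥0∞) * (((N : ℝ≥0)⁻¹ : ℝ≥0) : ℝ≥0∞) = 1 := by
          have h0 : (N : ℝ≥0) ≠ 0 := by exact_mod_cast (by omega : N ≠ 0)
          rw [ENNReal.coe_inv h0]
          exact ENNReal.mul_inv_cancel (by exact_mod_cast h0) (by simp)
        rw [this, one_mul]

end Pool.Agent.Helper49.Steklov
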