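import Pool.Agent.Helper49.Steklov.Maps
import Pool.Agent.Helper49.Steklov.DiskFun

/-!
The near-identity eigenfunctions at each level.
-/

open Filter Topology Metric
open scoped ContDiff Nat Real

namespace Pool.Agent.Helper49.Steklov

variable {N : ℕ → ℕ}

lemma iteratedDeriv_hasDerivAt {f : ℝ → ℝ} (hf : ContDiff ℝ ∞ f) (i : ℕ) (x : ℝ) :
    HasDerivAt (iteratedDeriv i f) (iteratedDeriv (i + 1) f x) x := by
  rw [iteratedDeriv_succ]
  exact ((hf.differentiable_iteratedDeriv i (by exact_mod_cast WithTop.coe_lt_top i)).differentiableAt).hasDerivAt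

theorem exists_level_fun (hN : ∀ j, 3 ≤ N j) (hG : ∀ j, GoodA N j) (k : ℕ) :
    ∃ (σ : ℝ) (f f' : ℂ → ℂ), 1 / 2 ≤ σ ∧ σ ≤ 2 ∧
      (∀ z ∈ closedBall (0 : ℂ) 1, HasDerivWithinAt f (f' z) (closedBall 0 1) z) ∧
      ContinuousOn f' (closedBall 0 1) ∧
      (∀ z ∈ closedBall (0 : ℂ) 1, ‖f z - z‖ ≤ al N k / 250) ∧
      (∀ z ∈ closedBall (0 : ℂ) 1, ‖f' z - 1‖ ≤ al N k / 250) ∧
      (∀ s : ℝ, (Complex.exp (s * Complex.I) * f' (Complex.exp (s * Complex.I))).re
        = σ * Q N (k + 1) s * (f (Complex.exp (s * Complex.I))).re) := by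
  have hE := E_contDiff hN hG (k + 1)
  have hN0 : (0 : ℝ) < N (k + 1) := by
    have := hN (k + 1)
    exact_mod_cast (by omega : 0 < N (k + 1))
  have hN1 : (1 : ℝ) ≤ N (k + 1) := by
    have := hN (k + 1)
    exact_mod_cast (by omega : 1 ≤ N (k + 1))
  set B : ℝ := tau N (k + 1) with hB
  have hbd : ∀ i ≤ 3, ∀ x, |iteratedDeriv i (E N (k + 1)) x| ≤ B := by
    intro i hi x
    have h := E_deriv_bound hN hG (k + 1) i hi x
    rwa [norm_iteratedFDeriv_eq_norm_iteratedDeriv] at h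
  let c : ℝ := (N (k + 1) : ℝ)⁻¹
  have hc0 : 0 < c := inv_pos.mpr hN0
  have hc1 : c ≤ 1 := inv_le_one_of_one_le₀ hN1
  let h : ℝ → ℝ := fun x => iteratedDeriv 1 (E N (k + 1)) (c * x)
  let h1 : ℝ → ℝ := fun x => c * iteratedDeriv 2 (E N (k + 1)) (c * x)
  let h2 : ℝ → ℝ := fun x => c * (c * iteratedDeriv 3 (E N (k + 1)) (c * x))
  have hlin : ∀ x, HasDerivAt (fun x : ℝ => c * x) c x := by
    intro x; simpa using (hasDerivAt_id x).const_mul c
  have hd1 : ∀ x, HasDerivAt h (h1 x) x := by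
    intro x
    have := (iteratedDeriv_hasDerivAt hE 1 (c * x)).comp x (hlin x)
    rw [mul_comm] at this
    exact this
  have hd2 : ∀ x, HasDerivAt h1 (h2 x) x := by
    intro x
    have := ((iteratedDeriv_hasDerivAt hE 2 (c * x)).comp x (hlin x)).const_mul c
    rw [mul_comm (iteratedDeriv (2 + 1) (E N (k + 1)) (c * x))] at this
    exact this
  have hcont : Continuous h2 := by
    have := hE.continuous_iteratedDeriv 3 (WithTop.coe_le_coe.2 le_top)
    fun_prop
  have hder : ∀ x, deriv (E N (k + 1)) x = iteratedDeriv 1 (E N (k + 1)) x := by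
    intro x; rw [iteratedDeriv_one]
  have hper : ∀ x, h (x + 2 * π) = h x := by
    intro x
    simp only [h, ← hder]
    have e : c * (x + 2 * π) = c * x + ((1 : ℤ) : ℝ) * (2 * π) / N (k + 1) := by
      simp only [c]; push_cast; field_simp
    have e2 : (fun y => E N (k + 1) (y + ((1 : ℤ) : ℝ) * (2 * π) / N (k + 1))) = E N (k + 1) := by
      ext y; exact E_period hN (k + 1) 1 y
    rw [e]
    conv_rhs => rw [← e2]
    exact (deriv_comp_add_const (E N (k + 1)) (((1 : ℤ) : ℝ) * (2 * π) / N (k + 1)) (c * x)).symm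
  have heven : ∀ x, h (-x) = h x := by
    intro x
    simp only [h, ← hder]
    have e : c * -x = -(c * x) := by ring
    rw [e]
    have e2 : (fun y => E N (k + 1) (-y)) = fun y => -E N (k + 1) y := by
      ext y; exact E_neg hN (k + 1) y
    have e3 : deriv (fun y => E N (k + 1) (-y)) (c * x)
        = deriv (fun y => -E N (k + 1) y) (c * x) := by rw [e2]
    rw [deriv_comp_neg, deriv.fun_neg] at e3
    linarith
  have hB0 : ∀ x, |h x| ≤ B := fun x => hbd 1 (by norm_num) _
  have hB2 : ∀ x, |h2 x| ≤ B := by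
    intro x
    simp only [h2]
    rw [abs_mul, abs_mul, abs_of_pos hc0]
    have e1 := hbd 3 le_rfl (c * x)
    have e2 := abs_nonneg (iteratedDeriv 3 (E N (k + 1)) (c * x))
    have e3 : c * |iteratedDeriv 3 (E N (k + 1)) (c * x)| ≤ B :=
      (mul_le_of_le_one_left e2 hc1).trans e1
    exact (mul_le_of_le_one_left (by positivity) hc1).trans e3
  obtain ⟨q, hsym, hq, hqB, hsum⟩ := fourier_real hd1 hd2 hcont hper heven hB0 hB2
  have hal := al_pos (hN k)
  have hal2 := al_le (hN k)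
  have hCF := one_le_CF
  have hBe : CF * B = al N k / 1000 := by
    rw [hB, tau, if_neg (Nat.succ_ne_zero k), Nat.add_sub_cancel]
    field_simp
  rw [hBe] at hqB
  obtain ⟨σ, f, f', hσ1, hσ2, hf, hf', hcl, hcl', hbdry⟩ := exists_diskFun (hN (k + 1)) hsym hq hqB
    (by linarith) hsum
  refine ⟨σ, f, f', hσ1, hσ2, hf, hf', fun z hz => (hcl z hz).trans (by linarith),
    fun z hz => (hcl' z hz).trans (by linarith), fun s => ?_⟩
  rw [hbdry s]
  have e : h (N (k + 1) * s) = deriv (E N (k + 1)) s := by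
    simp only [h, c, ← hder]
    congr 1
    field_simp
  rw [e]
  rfl

end Pool.Agent.Helper49.Steklov
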