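import Pool.Agent.Helper49.Steklov.Seq

/-!
The holomorphic self-maps of the disk whose boundary values are the circle maps `psi`.
-/

open Filter Topology Metric
open scoped ContDiff Nat

namespace Pool.Agent.Helper49.Steklov

/-- the Moebius map `w ↦ (w - a) / (1 - a w)` -/
noncomputable def mob (a : ℝ) (w : ℂ) : ℂ := (w - a) / (1 - a * w)

lemma mob_den_ne {a : ℝ} (ha : 0 ≤ a) (ha1 : a < 1) {w : ℂ} (hw : ‖w‖ ≤ 1) :
    (1 : ℂ) - a * w ≠ 0 := by
  intro h
  have h1 : (a : ℂ) * w = 1 := (sub_eq_zero.mp h).symm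
  have h2 : ‖(a : ℂ) * w‖ ≤ a := by
    rw [norm_mul, Complex.norm_real, Real.norm_eq_abs, abs_of_nonneg ha]
    exact mul_le_of_le_one_right ha hw
  rw [h1, norm_one] at h2
  linarith

lemma normSq_mob_id (a : ℝ) (w : ℂ) : Complex.normSq (1 - a * w) - Complex.normSq (w - a)
    = (1 - a ^ 2) * (1 - Complex.normSq w) := by
  simp only [Complex.normSq_apply, Complex.sub_re, Complex.sub_im, Complex.mul_re, Complex.mul_im,
    Complex.one_re, Complex.one_im, Complex.ofReal_re, Complex.ofReal_im]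
  ring

lemma norm_mob_lt {a : ℝ} (ha : 0 ≤ a) (ha1 : a < 1) {w : ℂ} (hw : ‖w‖ < 1) : ‖mob a w‖ < 1 := by
  unfold mob
  have hd := mob_den_ne ha ha1 hw.le
  rw [norm_div, div_lt_one (norm_pos_iff.mpr hd)]
  have h := normSq_mob_id a w
  have h1 : 0 < (1 - a ^ 2) * (1 - Complex.normSq w) := by
    apply mul_pos
    · nlinarith
    · rw [Complex.normSq_eq_norm_sq]; nlinarith [norm_nonneg w]
  rw [Complex.normSq_eq_norm_sq, Complex.normSq_eq_norm_sq] at h
  have h2 : ‖w - (a : ℂ)‖ ^ 2 < ‖(1 : ℂ) - a * w‖ ^ 2 := by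
    rw [Complex.normSq_eq_norm_sq] at h1
    rw [Complex.normSq_eq_norm_sq] at h
    linarith
  exact lt_of_pow_lt_pow_left₀ 2 (norm_nonneg _) h2

lemma norm_mob_le {a : ℝ} (ha : 0 ≤ a) (ha1 : a < 1) {w : ℂ} (hw : ‖w‖ ≤ 1) : ‖mob a w‖ ≤ 1 := by
  unfold mob
  have hd := mob_den_ne ha ha1 hw
  rw [norm_div, div_le_one (norm_pos_iff.mpr hd)]
  have h := normSq_mob_id a w
  have h1 : 0 ≤ (1 - a ^ 2) * (1 - Complex.normSq w) := by
    apply mul_nonneg
    · nlinarith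
    · rw [Complex.normSq_eq_norm_sq]; nlinarith [norm_nonneg w]
  simp only [Complex.normSq_eq_norm_sq] at h h1
  have h2 : ‖w - (a : ℂ)‖ ^ 2 ≤ ‖(1 : ℂ) - a * w‖ ^ 2 := by linarith
  exact le_of_sq_le_sq h2 (norm_nonneg _)

lemma mob_exp {a : ℝ} (ha : 0 ≤ a) (ha1 : a < 1) (s : ℝ) :
    mob a (Complex.exp (s * Complex.I)) = Complex.exp ((s + A a s : ℝ) * Complex.I) :=
  (exp_A ha ha1 s).symm

lemma mob_hasDerivAt {a : ℝ} (ha : 0 ≤ a) (ha1 : a < 1) {w : ℂ} (hw : ‖w‖ ≤ 1) :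
    HasDerivAt (mob a) ((1 - a ^ 2) / (1 - a * w) ^ 2) w := by
  have hd := mob_den_ne ha ha1 hw
  have h1 : HasDerivAt (fun w : ℂ => w - (a : ℂ)) 1 w := (hasDerivAt_id w).sub_const _
  have h2 : HasDerivAt (fun w : ℂ => (1 : ℂ) - a * w) (-(a : ℂ)) w := by
    simpa using ((hasDerivAt_id w).const_mul (a : ℂ)).const_sub 1
  have h3 := h1.div h2 hd
  have e : (1 - (a : ℂ) ^ 2) = 1 * (1 - a * w) - (w - a) * -(a : ℂ) := by ring
  rw [e]
  exact h3

/-- the tower of holomorphic maps -/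
noncomputable def g (N : ℕ → ℕ) : ℕ → ℂ → ℂ
  | 0 => fun z => z
  | (j + 1) => fun z => mob (al N j) (g N j z ^ N j)

variable {N : ℕ → ℕ}

lemma g_succ (N : ℕ → ℕ) (j : ℕ) (z : ℂ) : g N (j + 1) z = mob (al N j) (g N j z ^ N j) := rfl

lemma al_lt_one (hN : ∀ j, 3 ≤ N j) (j : ℕ) : al N j < 1 :=
  (al_le (hN j)).trans_lt (by norm_num)

lemma g_exp (hN : ∀ j, 3 ≤ N j) (j : ℕ) (s : ℝ) :
    g N j (Complex.exp (s * Complex.I)) = Complex.exp ((psi N 0 j s : ℝ) * Complex.I) := by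
  induction j with
  | zero => rfl
  | succ j ih =>
    rw [g_succ, ih, ← Complex.exp_nat_mul]
    have e : (N j : ℂ) * ((psi N 0 j s : ℝ) * Complex.I)
        = ((N j * psi N 0 j s : ℝ) : ℂ) * Complex.I := by push_cast; ring
    rw [e, mob_exp (al_pos (hN j)).le (al_lt_one hN j), psi_succ]
    simp only [zero_add]

lemma norm_g_lt (hN : ∀ j, 3 ≤ N j) (j : ℕ) {z : ℂ} (hz : ‖z‖ < 1) : ‖g N j z‖ < 1 := by
  induction j with
  | zero => exact hz
  | succ j ih =>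
    rw [g_succ]
    apply norm_mob_lt (al_pos (hN j)).le (al_lt_one hN j)
    rw [norm_pow]
    exact pow_lt_one₀ (norm_nonneg _) ih (by have := hN j; omega)

lemma norm_g_le (hN : ∀ j, 3 ≤ N j) (j : ℕ) {z : ℂ} (hz : ‖z‖ ≤ 1) : ‖g N j z‖ ≤ 1 := by
  induction j with
  | zero => exact hz
  | succ j ih =>
    rw [g_succ]
    apply norm_mob_le (al_pos (hN j)).le (al_lt_one hN j)
    rw [norm_pow]
    exact pow_le_one₀ (norm_nonneg _) ih

lemma g_analyticAt (hN : ∀ j, 3 ≤ N j) (j : ℕ) {z : ℂ} (hz : ‖z‖ ≤ 1) :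
    AnalyticAt ℂ (g N j) z := by
  induction j with
  | zero => exact analyticAt_id
  | succ j ih =>
    have e : g N (j + 1) = fun z => (g N j z ^ N j - (al N j : ℂ)) / (1 - (al N j : ℂ) * g N j z ^ N j) := by
      ext z; rfl
    rw [e]
    refine AnalyticAt.div ((ih.pow _).sub analyticAt_const)
      (analyticAt_const.sub (analyticAt_const.mul (ih.pow _))) ?_
    apply mob_den_ne (al_pos (hN j)).le (al_lt_one hN j)
    rw [norm_pow]
    exact pow_le_one₀ (norm_nonneg _) (norm_g_le hN j hz)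

lemma g_hasDerivAt (hN : ∀ j, 3 ≤ N j) (j : ℕ) {z : ℂ} (hz : ‖z‖ ≤ 1) :
    HasDerivAt (g N j) (deriv (g N j) z) z := (g_analyticAt hN j hz).differentiableAt.hasDerivAt

/-- on the unit circle `z g'(z) = ψ' g(z)` -/
lemma deriv_g_exp (hN : ∀ j, 3 ≤ N j) (j : ℕ) (s : ℝ) :
    Complex.exp (s * Complex.I) * deriv (g N j) (Complex.exp (s * Complex.I))
      = (deriv (psi N 0 j) s : ℝ) * g N j (Complex.exp (s * Complex.I)) := by
  have hz : ‖Complex.exp (s * Complex.I)‖ ≤ 1 := (norm_exp_I s).le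
  have h1 : HasDerivAt (fun s : ℝ => Complex.exp (s * Complex.I))
      (Complex.exp (s * Complex.I) * Complex.I) s := by
    have h := ((hasDerivAt_id (s : ℂ)).mul_const Complex.I).cexp.comp_ofReal
    simpa using h
  have h2 := (g_hasDerivAt hN j hz).comp s h1
  have h3 : HasDerivAt (fun s : ℝ => Complex.exp ((psi N 0 j s : ℝ) * Complex.I))
      (Complex.exp ((psi N 0 j s : ℝ) * Complex.I) * ((deriv (psi N 0 j) s : ℝ) * Complex.I)) s := by
    have h := (((psi_hasDerivAt hN 0 j s).ofReal_comp).mul_const Complex.I).cexp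
    exact h
  have e : (g N j ∘ fun s : ℝ => Complex.exp (s * Complex.I))
      = fun s : ℝ => Complex.exp ((psi N 0 j s : ℝ) * Complex.I) := by
    ext s; exact g_exp hN j s
  rw [e] at h2
  have h4 := h2.unique h3
  rw [g_exp hN j s]
  have hI : (Complex.I : ℂ) ≠ 0 := Complex.I_ne_zero
  apply mul_right_cancel₀ hI
  rw [mul_assoc, mul_comm (deriv (g N j) (Complex.exp (s * Complex.I))) Complex.I, ← mul_assoc,
    mul_comm (Complex.exp (s * Complex.I) * Complex.I), h4]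
  ring

lemma deriv_g_ne_zero (hN : ∀ j, 3 ≤ N j) (j : ℕ) (s : ℝ) :
    deriv (g N j) (Complex.exp (s * Complex.I)) ≠ 0 := by
  intro h
  have h1 := deriv_g_exp hN j s
  rw [h, mul_zero, g_exp hN j s] at h1
  have h2 := deriv_psi_pos hN 0 j s
  have h3 : ((deriv (psi N 0 j) s : ℝ) : ℂ) ≠ 0 := by exact_mod_cast h2.ne'
  exact mul_ne_zero h3 (Complex.exp_ne_zero _) h1.symm

end Pool.Agent.Helper49.Steklov
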