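import Pool.Agent.Helper49.Steklov.Hausdorff

/-!
Length of the nodal sets.
-/

open Filter Topology Metric MeasureTheory Set
open scoped ENNReal NNReal Real

namespace Pool.Agent.Helper49.Steklov

lemma rolle_segment {F F' : ℂ → ℂ} {W : Set ℂ} (hW : Convex ℝ W)
    (hF : ∀ τ ∈ W, HasDerivWithinAt F (F' τ) W τ) {τ₁ τ₂ : ℂ} (h1 : τ₁ ∈ W) (h2 : τ₂ ∈ W)
    (e1 : (F τ₁).re = 0) (e2 : (F τ₂).re = 0) : ∃ ξ ∈ W, (F' ξ * (τ₂ - τ₁)).re = 0 := by
  let c : ℝ → ℂ := fun t => τ₁ + t * (τ₂ - τ₁)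
  have hc : ∀ t ∈ Icc (0 : ℝ) 1, c t ∈ W := by
    intro t ht
    have := hW h1 h2 (a := 1 - t) (b := t) (by linarith [ht.2]) ht.1 (by ring)
    have e : c t = (1 - t) • τ₁ + t • τ₂ := by
      simp only [c, Complex.real_smul]
      push_cast
      ring
    rw [e]; exact this
  have hcd : ∀ t, HasDerivAt c (τ₂ - τ₁) t := by
    intro t
    have h3 : HasDerivAt (fun z : ℂ => τ₁ + z * (τ₂ - τ₁)) (τ₂ - τ₁) (t : ℂ) := by
      simpa using ((hasDerivAt_id (t : ℂ)).mul_const (τ₂ - τ₁)).const_add τ₁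
    exact h3.comp_ofReal
  have hFc : ∀ t ∈ Icc (0 : ℝ) 1,
      HasDerivWithinAt (fun t => F (c t)) (F' (c t) * (τ₂ - τ₁)) (Icc 0 1) t := by
    intro t ht
    exact HasDerivWithinAt.comp t (hF (c t) (hc t ht)) (hcd t).hasDerivWithinAt hc
  have hre : ∀ t ∈ Icc (0 : ℝ) 1,
      HasDerivWithinAt (fun t => (F (c t)).re) ((F' (c t) * (τ₂ - τ₁)).re) (Icc 0 1) t := by
    intro t ht
    exact (Complex.reCLM.hasFDerivAt (x := F (c t))).comp_hasDerivWithinAt t (hFc t ht)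
  obtain ⟨t, ht, ht0⟩ := exists_hasDerivAt_eq_zero (f := fun t => (F (c t)).re)
    (f' := fun t => (F' (c t) * (τ₂ - τ₁)).re) zero_lt_one
    (fun t ht => (hre t ht).continuousWithinAt)
    (by simp only [c]; simp [e1, e2])
    (fun t ht => (hre t ⟨ht.1.le, ht.2.le⟩).hasDerivAt (Icc_mem_nhds ht.1 ht.2))
  exact ⟨c t, hc t ⟨ht.1.le, ht.2.le⟩, ht0⟩

lemma re_mob (a : ℝ) (w : ℂ) : (mob a w).re
    = ((1 + a ^ 2) * w.re - a * (1 + Complex.normSq w)) / Complex.normSq (1 - a * w) := by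
  unfold mob
  rw [Complex.div_re, ← add_div]
  congr 1
  simp only [Complex.normSq_apply, Complex.sub_re, Complex.sub_im, Complex.mul_re, Complex.mul_im,
    Complex.one_re, Complex.one_im, Complex.ofReal_re, Complex.ofReal_im]
  ring

/-- points of the nodal set have real part at least `a / 2` -/
lemma re_ge_of_nodal {a : ℝ} (ha : 0 < a) (ha1 : a ≤ 1 / 81) {w : ℂ} (hw : ‖w‖ ≤ 1)
    (h : |(mob a w).re| ≤ a / 250) : a / 2 ≤ w.re := by
  have hd := mob_den_ne ha.le (by linarith) hw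
  have hpos : 0 < Complex.normSq (1 - a * w) := Complex.normSq_pos.mpr hd
  have hle : Complex.normSq (1 - a * w) ≤ 4 := by
    have h1 : ‖(1 : ℂ) - a * w‖ ≤ 2 := by
      calc ‖(1 : ℂ) - a * w‖ ≤ ‖(1 : ℂ)‖ + ‖(a : ℂ) * w‖ := norm_sub_le _ _
        _ ≤ 1 + 1 := by
          rw [norm_one, norm_mul, Complex.norm_real, Real.norm_eq_abs, abs_of_pos ha]
          have : a * ‖w‖ ≤ 1 * 1 := mul_le_mul (by linarith) hw (norm_nonneg _) zero_le_one
          linarith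
        _ = 2 := by norm_num
    rw [Complex.normSq_eq_norm_sq]
    nlinarith [norm_nonneg ((1 : ℂ) - a * w)]
  rw [re_mob] at h
  have h1 := (abs_le.mp h).1
  rw [le_div_iff₀ hpos] at h1
  have h2 : 0 ≤ Complex.normSq w := Complex.normSq_nonneg w
  have h3 : -(a / 250 * 4) ≤ -(a / 250) * Complex.normSq (1 - a * w) := by
    nlinarith
  have h4 : 0 ≤ a * Complex.normSq w := by positivity
  have h5 : a - a / 250 * 4 ≤ (1 + a ^ 2) * w.re := by nlinarith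
  by_contra h6
  rw [not_le] at h6
  have h7 : (1 + a ^ 2) * w.re ≤ (1 + a ^ 2) * (a / 2) :=
    mul_le_mul_of_nonneg_left h6.le (by positivity)
  have h8 : a ^ 2 ≤ 1 / 81 := by nlinarith
  nlinarith

section
variable {f f' : ℂ → ℂ} {a : ℝ}

/-- derivative in logarithmic coordinates -/
noncomputable def logD (f' : ℂ → ℂ) (a : ℝ) (τ : ℂ) : ℂ :=
  f' (mob a (Complex.exp τ)) * ((1 - a ^ 2) / (1 - a * Complex.exp τ) ^ 2 * Complex.exp τ)

lemma norm_exp_le_one {τ : ℂ} (hτ : τ.re ≤ 0) : ‖Complex.exp τ‖ ≤ 1 := by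
  rw [Complex.norm_exp]; exact Real.exp_le_one_iff.mpr hτ

lemma logD_hasDeriv (ha : 0 < a) (ha1 : a ≤ 1 / 81)
    (hf : ∀ z ∈ closedBall (0 : ℂ) 1, HasDerivWithinAt f (f' z) (closedBall 0 1) z)
    {W : Set ℂ} (hW : ∀ τ ∈ W, τ.re ≤ 0) {τ : ℂ} (hτ : τ ∈ W) :
    HasDerivWithinAt (fun τ => f (mob a (Complex.exp τ))) (logD f' a τ) W τ := by
  have hmaps : ∀ τ ∈ W, mob a (Complex.exp τ) ∈ closedBall (0 : ℂ) 1 := fun τ hτ =>
    mem_closedBall_zero_iff.mpr (norm_mob_le ha.le (by linarith) (norm_exp_le_one (hW τ hτ)))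
  have h1 : HasDerivAt (fun τ => mob a (Complex.exp τ))
      ((1 - a ^ 2) / (1 - a * Complex.exp τ) ^ 2 * Complex.exp τ) τ :=
    (mob_hasDerivAt ha.le (by linarith) (norm_exp_le_one (hW τ hτ))).comp τ
      (Complex.hasDerivAt_exp τ)
  exact HasDerivWithinAt.comp τ (hf _ (hmaps τ hτ)) h1.hasDerivWithinAt hmaps

lemma logD_close (ha : 0 < a) (ha1 : a ≤ 1 / 81)
    (hcl' : ∀ z ∈ closedBall (0 : ℂ) 1, ‖f' z - 1‖ ≤ a / 250) {τ : ℂ} (hτ : τ.re ≤ 0) :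
    ‖logD f' a τ - Complex.exp τ‖ ≤ Real.exp τ.re / 30 := by
  set w := Complex.exp τ with hw
  have hw1 : ‖w‖ ≤ 1 := norm_exp_le_one hτ
  have hwn : ‖w‖ = Real.exp τ.re := Complex.norm_exp τ
  have hd := mob_den_ne ha.le (by linarith) hw1
  have haw : ‖(a : ℂ) * w‖ ≤ a := by
    rw [norm_mul, Complex.norm_real, Real.norm_eq_abs, abs_of_pos ha]
    exact mul_le_of_le_one_right ha.le hw1
  have hden : 80 / 81 ≤ ‖(1 : ℂ) - a * w‖ := by
    have := norm_sub_norm_le (1 : ℂ) (a * w)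
    rw [norm_one] at this
    linarith
  set M : ℂ := (1 - a ^ 2) / (1 - a * w) ^ 2 with hM
  have hM1 : ‖M - 1‖ ≤ 13 / 500 := by
    have e : M - 1 = (2 * (a * w) - a ^ 2 - (a * w) ^ 2) / (1 - a * w) ^ 2 := by
      rw [hM]; field_simp; ring
    rw [e, norm_div, norm_pow]
    have h1 : ‖2 * ((a : ℂ) * w) - (a : ℂ) ^ 2 - (a * w) ^ 2‖ ≤ 2 * a + a ^ 2 + a ^ 2 := by
      calc ‖2 * ((a : ℂ) * w) - (a : ℂ) ^ 2 - (a * w) ^ 2‖
          ≤ ‖2 * ((a : ℂ) * w)‖ + ‖(a : ℂ) ^ 2‖ + ‖((a : ℂ) * w) ^ 2‖ :=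
            (norm_sub_le _ _).trans (add_le_add_left (norm_sub_le _ _) _)
        _ ≤ 2 * a + a ^ 2 + a ^ 2 := by
            have e1 : ‖2 * ((a : ℂ) * w)‖ ≤ 2 * a := by
              rw [norm_mul]
              have : ‖(2 : ℂ)‖ = 2 := by simp
              rw [this]; linarith
            have e2 : ‖(a : ℂ) ^ 2‖ = a ^ 2 := by
              rw [norm_pow, Complex.norm_real, Real.norm_eq_abs, abs_of_pos ha]
            have e3 : ‖((a : ℂ) * w) ^ 2‖ ≤ a ^ 2 := by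
              rw [norm_pow]; exact pow_le_pow_left₀ (norm_nonneg _) haw 2
            linarith
    rw [div_le_iff₀ (by positivity)]
    have h2 : (80 / 81 : ℝ) ^ 2 ≤ ‖(1 : ℂ) - a * w‖ ^ 2 := pow_le_pow_left₀ (by norm_num) hden 2
    nlinarith
  have hM2 : ‖M‖ ≤ 2 := by
    have := norm_add_le (M - 1) 1
    rw [sub_add_cancel, norm_one] at this
    linarith
  have hmz : mob a w ∈ closedBall (0 : ℂ) 1 :=
    mem_closedBall_zero_iff.mpr (norm_mob_le ha.le (by linarith) hw1)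
  have e : logD f' a τ - w = ((f' (mob a w) - 1) * M + (M - 1)) * w := by
    unfold logD
    rw [← hw, ← hM]
    ring
  rw [e, norm_mul, hwn, mul_comm]
  have h3 : ‖(f' (mob a w) - 1) * M + (M - 1)‖ ≤ 1 / 30 := by
    calc ‖(f' (mob a w) - 1) * M + (M - 1)‖ ≤ ‖(f' (mob a w) - 1) * M‖ + ‖M - 1‖ := norm_add_le _ _
      _ ≤ (a / 250) * 2 + 13 / 500 := by
          rw [norm_mul]
          exact add_le_add (mul_le_mul (hcl' _ hmz) hM2 (norm_nonneg _) (by positivity)) hM1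
      _ ≤ 1 / 30 := by linarith
  have := mul_le_mul_of_nonneg_left h3 (Real.exp_pos τ.re).le
  linarith

lemma nodal_log_le (ha : 0 < a) (ha1 : a ≤ 1 / 81)
    (hf : ∀ z ∈ closedBall (0 : ℂ) 1, HasDerivWithinAt f (f' z) (closedBall 0 1) z)
    (hcl : ∀ z ∈ closedBall (0 : ℂ) 1, ‖f z - z‖ ≤ a / 250)
    (hcl' : ∀ z ∈ closedBall (0 : ℂ) 1, ‖f' z - 1‖ ≤ a / 250) :
    μH[1] {τ : ℂ | τ.re ≤ 0 ∧ |τ.im| ≤ π ∧ (f (mob a (Complex.exp τ))).re = 0}
      ≤ ENNReal.ofReal (5 + 6 * Real.log (2 / a)) := by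
  set T := Real.log (2 / a) with hT
  have hTpos : 0 < T := Real.log_pos (by rw [lt_div_iff₀ ha]; linarith)
  have hpi := Real.pi_pos
  have hpi4 := Real.pi_lt_d2
  set L : Set ℂ := {τ : ℂ | τ.re ≤ 0 ∧ |τ.im| ≤ π ∧ (f (mob a (Complex.exp τ))).re = 0} with hL
  -- the basic facts about points of L
  have hbasic : ∀ τ ∈ L, -T ≤ τ.re ∧ |τ.im| ≤ π / 2 := by
    rintro τ ⟨h1, h2, h3⟩
    have hw1 := norm_exp_le_one h1
    have hmz : mob a (Complex.exp τ) ∈ closedBall (0 : ℂ) 1 :=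
      mem_closedBall_zero_iff.mpr (norm_mob_le ha.le (by linarith) hw1)
    have h4 : |(mob a (Complex.exp τ)).re| ≤ a / 250 := by
      have h5 := (Complex.abs_re_le_norm _).trans (hcl _ hmz)
      rw [Complex.sub_re, h3, zero_sub, abs_neg] at h5
      exact h5
    have h5 := re_ge_of_nodal ha ha1 hw1 h4
    rw [Complex.exp_re] at h5
    have hcos : 0 < Real.cos τ.im := by
      by_contra hc
      rw [not_lt] at hc
      have := mul_nonpos_of_nonneg_of_nonpos (Real.exp_pos τ.re).le hc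
      linarith
    constructor
    · have h6 : a / 2 ≤ Real.exp τ.re := by
        have : Real.exp τ.re * Real.cos τ.im ≤ Real.exp τ.re * 1 :=
          mul_le_mul_of_nonneg_left (Real.cos_le_one _) (Real.exp_pos _).le
        linarith
      have h7 : Real.log (a / 2) ≤ τ.re := by
        rw [← Real.log_exp τ.re]
        exact Real.log_le_log (by positivity) h6
      have h8 : Real.log (a / 2) = -T := by
        rw [hT, ← Real.log_inv, inv_div]
      linarith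
    · by_contra hc
      rw [not_le] at hc
      have h9 : Real.cos τ.im ≤ 0 := by
        rw [← Real.cos_abs]
        exact Real.cos_nonpos_of_pi_div_two_le_of_le hc.le (by linarith)
      linarith
  -- numerical facts
  have hs2 : (7 / 10 : ℝ) ≤ √2 / 2 := by
    have : (1.4 : ℝ) ≤ √2 := Real.le_sqrt_of_sq_le (by norm_num)
    linarith
  have hs2' : √2 / 2 ≤ (71 / 100 : ℝ) := by
    have : √2 ≤ (1.42 : ℝ) := by
      rw [Real.sqrt_le_left (by norm_num)]; norm_num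
    linarith
  have hder : ∀ τ : ℂ, τ.re ≤ 0 → |(logD f' a τ).re - Real.exp τ.re * Real.cos τ.im| ≤ Real.exp τ.re / 30
      ∧ |(logD f' a τ).im - Real.exp τ.re * Real.sin τ.im| ≤ Real.exp τ.re / 30 := by
    intro τ hτ
    have h := logD_close ha ha1 hcl' hτ
    constructor
    · have := (Complex.abs_re_le_norm _).trans h
      rwa [Complex.sub_re, Complex.exp_re] at this
    · have := (Complex.abs_im_le_norm _).trans h
      rwa [Complex.sub_im, Complex.exp_im] at this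
  have hlin : ∀ {p q x y : ℝ}, 0 < p → |q| ≤ 2 * p → p * x = q * y → |x| ≤ 2 * |y| := by
    intro p q x y hp hq he
    have h1 : p * |x| = |q| * |y| := by
      rw [← abs_mul, ← he, abs_mul, abs_of_pos hp]
    have h2 : |q| * |y| ≤ 2 * p * |y| := mul_le_mul_of_nonneg_right hq (abs_nonneg _)
    have h3 : p * |x| ≤ p * (2 * |y|) := by rw [h1]; linarith
    exact le_of_mul_le_mul_left h3 hp
  -- region one
  let W₀ : Set ℂ := {τ | τ.re ≤ 0 ∧ |τ.im| ≤ π / 4}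
  let W₁ : Set ℂ := {τ | τ.re ≤ 0 ∧ π / 4 ≤ τ.im ∧ τ.im ≤ π / 2}
  let W₂ : Set ℂ := {τ | τ.re ≤ 0 ∧ -(π / 2) ≤ τ.im ∧ τ.im ≤ -(π / 4)}
  have hre : ∀ c : ℝ, Convex ℝ {τ : ℂ | τ.re ≤ c} := fun c => convex_halfSpace_re_le c
  have him : ∀ c : ℝ, Convex ℝ {τ : ℂ | τ.im ≤ c} := fun c => convex_halfSpace_im_le c
  have him' : ∀ c : ℝ, Convex ℝ {τ : ℂ | c ≤ τ.im} := fun c => convex_halfSpace_im_ge c
  have hW₀ : Convex ℝ W₀ := by
    have : W₀ = {τ : ℂ | τ.re ≤ 0} ∩ ({τ : ℂ | -(π / 4) ≤ τ.im} ∩ {τ : ℂ | τ.im ≤ π / 4}) := by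
      ext τ; simp only [W₀, mem_ofPred_eq, mem_inter_iff, abs_le]
    rw [this]
    exact (hre 0).inter ((him' _).inter (him _))
  have hW₁ : Convex ℝ W₁ := (hre 0).inter ((him' _).inter (him _))
  have hW₂ : Convex ℝ W₂ := (hre 0).inter ((him' _).inter (him _))
  have hexp : ∀ τ : ℂ, 0 < Real.exp τ.re := fun τ => Real.exp_pos _
  have d0 : ∀ τ₁ ∈ L ∩ W₀, ∀ τ₂ ∈ L ∩ W₀, edist τ₁ τ₂ ≤ (3 : ℝ≥0) * edist τ₁.im τ₂.im := by
    rintro τ₁ ⟨hL1, hw1⟩ τ₂ ⟨hL2, hw2⟩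
    obtain ⟨ξ, hξ, h0⟩ := rolle_segment hW₀
      (fun τ hτ => logD_hasDeriv ha ha1 hf (fun τ hτ => hτ.1) hτ) hw1 hw2 hL1.2.2 hL2.2.2
    obtain ⟨h1, h2⟩ := hder ξ hξ.1
    rw [Complex.mul_re, sub_eq_zero] at h0
    have hc : √2 / 2 ≤ Real.cos ξ.im := by
      rw [← Real.cos_pi_div_four, ← Real.cos_abs ξ.im]
      exact Real.cos_le_cos_of_nonneg_of_le_pi (abs_nonneg _) (by linarith) hξ.2
    have hs : |Real.sin ξ.im| ≤ √2 / 2 := by
      rw [Real.abs_sin_eq_sin_abs_of_abs_le_pi (by linarith [hξ.2]), ← Real.sin_pi_div_four]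
      exact Real.sin_le_sin_of_le_of_le_pi_div_two (by linarith [abs_nonneg ξ.im]) (by linarith) hξ.2
    have hE := hexp ξ
    have h3 : (7 / 10 - 1 / 30) * Real.exp ξ.re ≤ (logD f' a ξ).re := by
      have := (abs_le.mp h1).1
      nlinarith
    have h4 : |(logD f' a ξ).im| ≤ (71 / 100 + 1 / 30) * Real.exp ξ.re := by
      have e : |Real.exp ξ.re * Real.sin ξ.im| ≤ Real.exp ξ.re * (71 / 100) := by
        rw [abs_mul, abs_of_pos hE]
        exact mul_le_mul_of_nonneg_left (hs.trans hs2') hE.le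
      have := abs_sub_abs_le_abs_sub (logD f' a ξ).im (Real.exp ξ.re * Real.sin ξ.im)
      linarith
    have h5 := hlin (by nlinarith) (by nlinarith) h0
    rw [edist_dist, edist_dist, Complex.dist_eq, Real.dist_eq, show ((3 : ℝ≥0) : ℝ≥0∞)
      = ENNReal.ofReal 3 by simp, ← ENNReal.ofReal_mul (by norm_num)]
    apply ENNReal.ofReal_le_ofReal
    have h6 := Complex.norm_le_abs_re_add_abs_im (τ₁ - τ₂)
    rw [Complex.sub_re, Complex.sub_im] at h6 h5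
    rw [abs_sub_comm τ₂.re, abs_sub_comm τ₂.im] at h5
    linarith
  have d12 : ∀ W : Set ℂ, (W = W₁ ∨ W = W₂) → ∀ τ₁ ∈ L ∩ W, ∀ τ₂ ∈ L ∩ W,
      edist τ₁ τ₂ ≤ (3 : ℝ≥0) * edist τ₁.re τ₂.re := by
    rintro W hW τ₁ ⟨hL1, hw1⟩ τ₂ ⟨hL2, hw2⟩
    have hWc : Convex ℝ W := by rcases hW with rfl | rfl; exacts [hW₁, hW₂]
    have hWre : ∀ τ ∈ W, τ.re ≤ 0 := by
      rcases hW with rfl | rfl
      · exact fun τ hτ => hτ.1
      · exact fun τ hτ => hτ.1
    have hWim : ∀ τ ∈ W, π / 4 ≤ |τ.im| ∧ |τ.im| ≤ π / 2 := by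
      rcases hW with rfl | rfl
      · intro τ hτ
        rw [abs_of_nonneg (by linarith [hτ.2.1])]
        exact hτ.2
      · intro τ hτ
        rw [abs_of_nonpos (by linarith [hτ.2.2])]
        constructor
        · linarith [hτ.2.2]
        · linarith [hτ.2.1]
    obtain ⟨ξ, hξ, h0⟩ := rolle_segment hWc
      (fun τ hτ => logD_hasDeriv ha ha1 hf hWre hτ) hw1 hw2 hL1.2.2 hL2.2.2
    obtain ⟨h1, h2⟩ := hder ξ (hWre ξ hξ)
    obtain ⟨hξ1, hξ2⟩ := hWim ξ hξ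
    rw [Complex.mul_re, sub_eq_zero] at h0
    have hc : Real.cos ξ.im ≤ √2 / 2 := by
      rw [← Real.cos_pi_div_four, ← Real.cos_abs ξ.im]
      exact Real.cos_le_cos_of_nonneg_of_le_pi (by linarith) (by linarith) hξ1
    have hc0 : 0 ≤ Real.cos ξ.im := by
      rw [← Real.cos_abs ξ.im]
      exact Real.cos_nonneg_of_neg_pi_div_two_le_of_le (by linarith) hξ2
    have hs : √2 / 2 ≤ |Real.sin ξ.im| := by
      rw [Real.abs_sin_eq_sin_abs_of_abs_le_pi (by linarith), ← Real.sin_pi_div_four]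
      exact Real.sin_le_sin_of_le_of_le_pi_div_two (by linarith) hξ2 hξ1
    have hE := hexp ξ
    have h3 : |(logD f' a ξ).re| ≤ (71 / 100 + 1 / 30) * Real.exp ξ.re := by
      rw [abs_le]
      have := abs_le.mp h1
      constructor
      · nlinarith
      · nlinarith
    have h4 : (7 / 10 - 1 / 30) * Real.exp ξ.re ≤ |(logD f' a ξ).im| := by
      have e : Real.exp ξ.re * (7 / 10) ≤ |Real.exp ξ.re * Real.sin ξ.im| := by
        rw [abs_mul, abs_of_pos hE]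
        exact mul_le_mul_of_nonneg_left (hs2.trans hs) hE.le
      have := abs_sub_abs_le_abs_sub (Real.exp ξ.re * Real.sin ξ.im) (logD f' a ξ).im
      rw [abs_sub_comm] at h2
      linarith
    have h0' : |(logD f' a ξ).im| * |(τ₂ - τ₁).im| = |(logD f' a ξ).re| * |(τ₂ - τ₁).re| := by
      rw [← abs_mul, ← abs_mul, h0]
    have h5 := hlin (x := |(τ₂ - τ₁).im|) (y := |(τ₂ - τ₁).re|) (p := |(logD f' a ξ).im|)
      (q := |(logD f' a ξ).re|) (by nlinarith) (by rw [abs_abs]; nlinarith) h0'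
    rw [abs_abs, abs_abs] at h5
    rw [edist_dist, edist_dist, Complex.dist_eq, Real.dist_eq, show ((3 : ℝ≥0) : ℝ≥0∞)
      = ENNReal.ofReal 3 by simp, ← ENNReal.ofReal_mul (by norm_num)]
    apply ENNReal.ofReal_le_ofReal
    have h6 := Complex.norm_le_abs_re_add_abs_im (τ₁ - τ₂)
    rw [Complex.sub_re, Complex.sub_im] at h6
    rw [Complex.sub_re, Complex.sub_im, abs_sub_comm τ₂.re, abs_sub_comm τ₂.im] at h5
    linarith
  have m0 : μH[1] (L ∩ W₀) ≤ ENNReal.ofReal (3 * (π / 2)) := by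
    refine (hm_le_of_antilip d0 (S := Icc (-(π / 4)) (π / 4)) (fun τ hτ => abs_le.mp hτ.2.2)).trans ?_
    rw [MeasureTheory.hausdorffMeasure_real, Real.volume_Icc, show ((3 : ℝ≥0) : ℝ≥0∞)
      = ENNReal.ofReal 3 by simp, ← ENNReal.ofReal_mul (by norm_num)]
    apply ENNReal.ofReal_le_ofReal
    linarith
  have m12 : ∀ W : Set ℂ, (W = W₁ ∨ W = W₂) → μH[1] (L ∩ W) ≤ ENNReal.ofReal (3 * T) := by
    intro W hW
    refine (hm_le_of_antilip (d12 W hW) (S := Icc (-T) 0) (fun τ hτ =>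
      ⟨(hbasic τ hτ.1).1, hτ.1.1⟩)).trans ?_
    rw [MeasureTheory.hausdorffMeasure_real, Real.volume_Icc, show ((3 : ℝ≥0) : ℝ≥0∞)
      = ENNReal.ofReal 3 by simp, ← ENNReal.ofReal_mul (by norm_num)]
    apply ENNReal.ofReal_le_ofReal
    linarith
  have hcover : L ⊆ (L ∩ W₀) ∪ ((L ∩ W₁) ∪ (L ∩ W₂)) := by
    intro τ hτ
    have h1 := (hbasic τ hτ).2
    have h2 := abs_le.mp h1
    by_cases h : |τ.im| ≤ π / 4
    · exact Or.inl ⟨hτ, hτ.1, h⟩
    · rw [not_le, lt_abs] at h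
      rcases h with h | h
      · exact Or.inr (Or.inl ⟨hτ, hτ.1, h.le, h2.2⟩)
      · exact Or.inr (Or.inr ⟨hτ, hτ.1, h2.1, by linarith⟩)
  calc μH[1] L ≤ μH[1] ((L ∩ W₀) ∪ ((L ∩ W₁) ∪ (L ∩ W₂))) := measure_mono hcover
    _ ≤ μH[1] (L ∩ W₀) + (μH[1] (L ∩ W₁) + μH[1] (L ∩ W₂)) :=
        (measure_union_le _ _).trans (add_le_add_right (measure_union_le _ _) _)
    _ ≤ ENNReal.ofReal (3 * (π / 2)) + (ENNReal.ofReal (3 * T) + ENNReal.ofReal (3 * T)) :=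
        add_le_add m0 (add_le_add (m12 _ (Or.inl rfl)) (m12 _ (Or.inr rfl)))
    _ = ENNReal.ofReal (3 * (π / 2) + (3 * T + 3 * T)) := by
        rw [ENNReal.ofReal_add (by positivity) (by positivity),
          ENNReal.ofReal_add (by positivity) (by positivity)]
    _ ≤ ENNReal.ofReal (5 + 6 * T) := by
        apply ENNReal.ofReal_le_ofReal
        linarith
end

/-- length of the nodal set of `Re (f ∘ g_{j+1})` -/
lemma nodal_le {N : ℕ → ℕ} (hN : ∀ j, 3 ≤ N j) (j : ℕ) {η : ℝ} {K : ℝ≥0}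
    (hdist : ∀ S : Set ℂ, μH[1] {z : ℂ | ‖z‖ ≤ 1 ∧ g N j z ∈ S ∧ 1 - η ≤ ‖g N j z‖} ≤ K * μH[1] S)
    (hη : (1 - η) ^ N j ≤ al N j / 2) {f f' : ℂ → ℂ}
    (hf : ∀ z ∈ closedBall (0 : ℂ) 1, HasDerivWithinAt f (f' z) (closedBall 0 1) z)
    (hcl : ∀ z ∈ closedBall (0 : ℂ) 1, ‖f z - z‖ ≤ al N j / 250)
    (hcl' : ∀ z ∈ closedBall (0 : ℂ) 1, ‖f' z - 1‖ ≤ al N j / 250) :
    μH[1] {z : ℂ | ‖z‖ ≤ 1 ∧ (f (g N (j + 1) z)).re = 0}
      ≤ K * ENNReal.ofReal (5 + 6 * Real.log (2 / al N j)) := by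
  set a := al N j with ha_def
  have ha : 0 < a := al_pos (hN j)
  have ha1 : a ≤ 1 / 81 := al_le (hN j)
  have hNj : N j ≠ 0 := by have := hN j; omega
  set S' : Set ℂ := {w | (f (mob a w)).re = 0} with hS'
  have hsub : {z : ℂ | ‖z‖ ≤ 1 ∧ (f (g N (j + 1) z)).re = 0}
      ⊆ {z : ℂ | ‖z‖ ≤ 1 ∧ g N j z ∈ {ζ : ℂ | ‖ζ‖ ≤ 1 ∧ ζ ≠ 0 ∧ ζ ^ N j ∈ S'} ∧ 1 - η ≤ ‖g N j z‖} := by
    rintro z ⟨hz1, hz2⟩
    have hg1 := norm_g_le hN j hz1
    have hw1 : ‖g N j z ^ N j‖ ≤ 1 := by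
      rw [norm_pow]; exact pow_le_one₀ (norm_nonneg _) hg1
    have hmz : mob a (g N j z ^ N j) ∈ closedBall (0 : ℂ) 1 :=
      mem_closedBall_zero_iff.mpr (norm_mob_le ha.le (by linarith) hw1)
    have hz3 : (f (mob a (g N j z ^ N j))).re = 0 := hz2
    have h4 : |(mob a (g N j z ^ N j)).re| ≤ a / 250 := by
      have h5 := (Complex.abs_re_le_norm _).trans (hcl _ hmz)
      rw [Complex.sub_re, hz3, zero_sub, abs_neg] at h5
      exact h5
    have h5 := re_ge_of_nodal ha ha1 hw1 h4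
    have h6 : a / 2 ≤ ‖g N j z‖ ^ N j := by
      rw [← norm_pow]
      exact h5.trans (Complex.re_le_norm _)
    have h7 : g N j z ≠ 0 := by
      intro h
      rw [h, norm_zero, zero_pow hNj] at h6
      linarith
    refine ⟨hz1, ⟨hg1, h7, hz3⟩, ?_⟩
    by_contra hc
    rw [not_le] at hc
    have := pow_lt_pow_left₀ hc (norm_nonneg _) hNj
    linarith
  refine (measure_mono hsub).trans ((hdist _).trans ?_)
  gcongr
  exact (hm_root_le (by have := hN j; omega) S').trans (nodal_log_le ha ha1 hf hcl hcl')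

end Pool.Agent.Helper49.Steklov
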