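import Pool.Agent.Helper49.Steklov.Level

/-!
Smooth extension of a periodic function of the angle.
-/

open Filter Topology Metric Set
open scoped ContDiff Real

namespace Pool.Agent.Helper49.Steklov

/-- smooth function on the plane with boundary values `1 + q θ` at `exp (i θ)` -/
noncomputable def rho (q : ℝ → ℝ) (z : ℂ) : ℝ :=
  1 + Real.smoothTransition (2 * ‖z‖ ^ 2 - 1) * q (Complex.arg z)

lemma contDiffAt_arg {z : ℂ} (hz : z ∈ Complex.slitPlane) : ContDiffAt ℝ ∞ Complex.arg z := by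
  have h1 : ContDiffAt ℝ ∞ Complex.log z := (Complex.contDiffAt_log hz (n := ∞)).restrict_scalars ℝ
  have h2 : ContDiffAt ℝ ∞ (fun z => Complex.imCLM (Complex.log z)) z :=
    Complex.imCLM.contDiff.contDiffAt.comp z h1
  have e : (fun z => Complex.imCLM (Complex.log z)) = Complex.arg := by
    ext z; simp [Complex.log_im]
  rwa [e] at h2

lemma q_arg_neg {q : ℝ → ℝ} (hper : ∀ x (l : ℤ), q (x + l * (2 * π)) = q x) {z : ℂ} (hz : z ≠ 0) :
    q (Complex.arg z) = q (Complex.arg (-z) + π) := by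
  have h := Complex.arg_neg_coe_angle (x := -z) (neg_ne_zero.mpr hz)
  rw [neg_neg, ← Real.Angle.coe_add, Real.Angle.angle_eq_iff_two_pi_dvd_sub] at h
  obtain ⟨k, hk⟩ := h
  have : Complex.arg z = Complex.arg (-z) + π + k * (2 * π) := by linarith
  rw [this, hper]

lemma contDiffAt_q_arg {q : ℝ → ℝ} (hq : ContDiff ℝ ∞ q)
    (hper : ∀ x (l : ℤ), q (x + l * (2 * π)) = q x) {z : ℂ} (hz : z ≠ 0) :
    ContDiffAt ℝ ∞ (fun z => q (Complex.arg z)) z := by
  rcases Complex.mem_slitPlane_or_neg_mem_slitPlane hz with h | h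
  · exact hq.contDiffAt.comp z (contDiffAt_arg h)
  · have h1 : ContDiffAt ℝ ∞ (fun z => q (Complex.arg (-z) + π)) z := by
      refine hq.contDiffAt.comp z (ContDiffAt.add ?_ contDiffAt_const)
      exact (contDiffAt_arg h).comp z contDiff_neg.contDiffAt
    refine h1.congr_of_eventuallyEq ?_
    filter_upwards [isOpen_ne.mem_nhds hz] with w hw
    exact q_arg_neg hper hw

lemma rho_contDiff {q : ℝ → ℝ} (hq : ContDiff ℝ ∞ q)
    (hper : ∀ x (l : ℤ), q (x + l * (2 * π)) = q x) : ContDiff ℝ ∞ (rho q) := by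
  rw [contDiff_iff_contDiffAt]
  intro z
  by_cases hz : z = 0
  · have : (rho q) =ᶠ[𝓝 z] fun _ => 1 := by
      have hopen : IsOpen {w : ℂ | 2 * ‖w‖ ^ 2 - 1 < 0} :=
        isOpen_lt (by fun_prop) continuous_const
      filter_upwards [hopen.mem_nhds (by rw [hz]; simp)] with w hw
      have hw' : 2 * ‖w‖ ^ 2 - 1 ≤ 0 := le_of_lt hw
      rw [rho, Real.smoothTransition.zero_of_nonpos hw', zero_mul, add_zero]
    exact contDiffAt_const.congr_of_eventuallyEq this
  · refine contDiffAt_const.add (ContDiffAt.mul ?_ (contDiffAt_q_arg hq hper hz))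
    refine Real.smoothTransition.contDiff.contDiffAt.comp z ?_
    exact ((contDiff_const.mul (contDiff_norm_sq ℝ)).sub contDiff_const).contDiffAt

lemma rho_mem {q : ℝ → ℝ} (hb : ∀ x, |q x| ≤ 1 / 4) (z : ℂ) : 3 / 4 ≤ rho q z ∧ rho q z ≤ 5 / 4 := by
  unfold rho
  have h1 := Real.smoothTransition.nonneg (2 * ‖z‖ ^ 2 - 1)
  have h2 := Real.smoothTransition.le_one (2 * ‖z‖ ^ 2 - 1)
  have h3 : |Real.smoothTransition (2 * ‖z‖ ^ 2 - 1) * q (Complex.arg z)| ≤ 1 / 4 := by
    rw [abs_mul, abs_of_nonneg h1]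
    calc Real.smoothTransition (2 * ‖z‖ ^ 2 - 1) * |q (Complex.arg z)|
        ≤ 1 * (1 / 4) := mul_le_mul h2 (hb _) (abs_nonneg _) zero_le_one
      _ = 1 / 4 := one_mul _
  have h4 := abs_le.mp h3
  constructor <;> linarith

lemma rho_exp {q : ℝ → ℝ} (hper : ∀ x (l : ℤ), q (x + l * (2 * π)) = q x) (s : ℝ) :
    rho q (Complex.exp (s * Complex.I)) = 1 + q s := by
  unfold rho
  rw [norm_exp_I]
  have e : (2 * (1 : ℝ) ^ 2 - 1) = 1 := by norm_num
  rw [e, Real.smoothTransition.one, one_mul]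
  congr 1
  have h : ((Complex.arg (Complex.exp (s * Complex.I)) : ℝ) : Real.Angle) = (s : Real.Angle) := by
    have := Complex.arg_exp_mul_I s
    rw [this, Real.Angle.coe_toIocMod]
  rw [Real.Angle.angle_eq_iff_two_pi_dvd_sub] at h
  obtain ⟨k, hk⟩ := h
  have : Complex.arg (Complex.exp (s * Complex.I)) = s + k * (2 * π) := by linarith
  rw [this, hper]

end Pool.Agent.Helper49.Steklov
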