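import Pool.Agent.Helper49.Steklov.BD
import Pool.Agent.Helper49.Steklov.Fourier

/-!
The tower of circle maps and the limit functions.
-/

open Filter Topology Finset
open scoped ContDiff Nat

namespace Pool.Agent.Helper49.Steklov

/-- the small parameter attached to `N j` -/
noncomputable def al (N : ℕ → ℕ) (j : ℕ) : ℝ := ((N j : ℝ) ^ (j + 4))⁻¹

/-- the lift of the circle map from level `k` to level `k + n` -/
noncomputable def psi (N : ℕ → ℕ) (k : ℕ) : ℕ → ℝ → ℝ
  | 0 => fun s => s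
  | (n + 1) => fun s => N (k + n) * psi N k n s + A (al N (k + n)) (N (k + n) * psi N k n s)

/-- the degree of the circle map from level `k` to level `k + n` -/
def DD (N : ℕ → ℕ) (k n : ℕ) : ℕ := ∏ i ∈ range n, N (k + i)

/-- the `n`-th term of the limit function at level `k` -/
noncomputable def eterm (N : ℕ → ℕ) (k n : ℕ) (s : ℝ) : ℝ :=
  (DD N k (n + 1) : ℝ)⁻¹ * A (al N (k + n)) (N (k + n) * psi N k n s)

/-- periodic part of the limit function at level `k` -/
noncomputable def E (N : ℕ → ℕ) (k : ℕ) (s : ℝ) : ℝ := ∑' n, eterm N k n s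

/-- the limit function at level `k` -/
noncomputable def Psi (N : ℕ → ℕ) (k : ℕ) (s : ℝ) : ℝ := s + E N k s

/-- tolerance at level `k` -/
noncomputable def tau (N : ℕ → ℕ) (k : ℕ) : ℝ :=
  if k = 0 then 1 / 4 else al N (k - 1) / (1000 * CF)

lemma DD_succ (N : ℕ → ℕ) (k n : ℕ) : DD N k (n + 1) = DD N k n * N (k + n) := by
  unfold DD; rw [prod_range_succ]

lemma DD_zero (N : ℕ → ℕ) (k : ℕ) : DD N k 0 = 1 := by simp [DD]

lemma DD_add (N : ℕ → ℕ) (k n : ℕ) : DD N 0 (k + n) = DD N 0 k * DD N k n := by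
  unfold DD; rw [prod_range_add]; simp

lemma DD_pos {N : ℕ → ℕ} (hN : ∀ j, 3 ≤ N j) (k n : ℕ) : 0 < DD N k n :=
  Finset.prod_pos fun i _ => by have := hN (k + i); omega

lemma le_DD {N : ℕ → ℕ} (hN : ∀ j, 3 ≤ N j) (k n : ℕ) : N (k + n) ≤ DD N k (n + 1) := by
  rw [DD_succ]; exact Nat.le_mul_of_pos_left _ (DD_pos hN k n)

lemma al_pos {N : ℕ → ℕ} {j : ℕ} (hN : 3 ≤ N j) : 0 < al N j := by
  unfold al
  have : (0 : ℝ) < N j := by exact_mod_cast (by omega : 0 < N j)
  positivity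

lemma al_le {N : ℕ → ℕ} {j : ℕ} (hN : 3 ≤ N j) : al N j ≤ 1 / 81 := by
  unfold al
  have h3 : (3 : ℝ) ≤ N j := by exact_mod_cast hN
  have h : (81 : ℝ) ≤ (N j : ℝ) ^ (j + 4) := by
    calc (81 : ℝ) = 3 ^ 4 := by norm_num
      _ ≤ (N j : ℝ) ^ 4 := pow_le_pow_left₀ (by norm_num) h3 4
      _ ≤ (N j : ℝ) ^ (j + 4) := pow_le_pow_right₀ (by linarith) (by omega)
  rw [one_div]
  exact inv_anti₀ (by norm_num) h

lemma tau_pos {N : ℕ → ℕ} (hN : ∀ j, 3 ≤ N j) (k : ℕ) : 0 < tau N k := by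
  unfold tau
  split_ifs
  · norm_num
  · have := al_pos (hN (k - 1))
    have := one_le_CF
    positivity

lemma tau_le {N : ℕ → ℕ} (hN : ∀ j, 3 ≤ N j) (k : ℕ) : tau N k ≤ 1 / 4 := by
  unfold tau
  split_ifs
  · exact le_rfl
  · have h1 := al_le (hN (k - 1))
    have h2 := one_le_CF
    have h3 := al_pos (hN (k - 1))
    rw [div_le_iff₀ (by positivity)]
    nlinarith

lemma psi_succ (N : ℕ → ℕ) (k n : ℕ) (s : ℝ) : psi N k (n + 1) s
    = N (k + n) * psi N k n s + A (al N (k + n)) (N (k + n) * psi N k n s) := rfl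

lemma psi_add (N : ℕ → ℕ) (k n : ℕ) (s : ℝ) : psi N 0 (k + n) s = psi N k n (psi N 0 k s) := by
  induction n with
  | zero => rfl
  | succ n ih =>
    rw [← add_assoc, psi_succ, psi_succ, ih, zero_add]

lemma psi_div {N : ℕ → ℕ} (hN : ∀ j, 3 ≤ N j) (k n : ℕ) (s : ℝ) :
    psi N k n s / DD N k n = s + ∑ i ∈ range n, eterm N k i s := by
  induction n with
  | zero => simp [psi, DD_zero]
  | succ n ih =>
    rw [sum_range_succ, ← add_assoc, ← ih, psi_succ, eterm, DD_succ]
    have h1 : (DD N k n : ℝ) ≠ 0 := by exact_mod_cast (DD_pos hN k n).ne'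
    have h2 : (N (k + n) : ℝ) ≠ 0 := by
      have := hN (k + n)
      exact_mod_cast (by omega : N (k + n) ≠ 0)
    push_cast
    field_simp

lemma psi_BD {N : ℕ → ℕ} (hN : ∀ j, 3 ≤ N j) (k n : ℕ) : BD (psi N k n) := by
  induction n with
  | zero => exact BD_id
  | succ n ih =>
    exact ih.step (al_pos (hN _)).le ((al_le (hN _)).trans (by norm_num)) (by have := hN (k + n); omega)

/-- the smoothness/smallness condition at step `j` -/
def GoodA (N : ℕ → ℕ) (j : ℕ) : Prop :=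
  ∀ k ≤ j, ∀ i ≤ j + 3, ∀ s,
    ‖iteratedFDeriv ℝ i (fun s => A (al N j) (N j * psi N k (j - k) s)) s‖
      ≤ tau N k * (1 / 2) ^ (j - k + 1)

variable {N : ℕ → ℕ}

lemma eterm_contDiff (hN : ∀ j, 3 ≤ N j) (k n : ℕ) : ContDiff ℝ ∞ (eterm N k n) :=
  contDiff_const.mul (contDiff_A_comp (psi_BD hN k n).1 (al_pos (hN _)).le
    ((al_le (hN _)).trans (by norm_num)) _)

lemma eterm_bound (hN : ∀ j, 3 ≤ N j) (hG : ∀ j, GoodA N j) (k n i : ℕ) (hi : i ≤ k + n + 3)
    (s : ℝ) : ‖iteratedFDeriv ℝ i (eterm N k n) s‖ ≤ tau N k * (1 / 2) ^ (n + 1) := by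
  have h := hG (k + n) k (by omega) i (by omega) s
  rw [show k + n - k = n by omega] at h
  have hsm := contDiff_A_comp (psi_BD hN k n).1 (al_pos (hN (k + n))).le
    ((al_le (hN (k + n))).trans (by norm_num)) (N (k + n))
  have h1 : iteratedFDeriv ℝ i (eterm N k n) s
      = (DD N k (n + 1) : ℝ)⁻¹ • iteratedFDeriv ℝ i
        (fun s => A (al N (k + n)) (N (k + n) * psi N k n s)) s :=
    iteratedFDeriv_const_mul' hsm _ i s
  rw [h1, norm_smul]
  have h2 : ‖(DD N k (n + 1) : ℝ)⁻¹‖ ≤ 1 := by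
    rw [norm_inv, Real.norm_natCast]
    exact inv_le_one_of_one_le₀ (by exact_mod_cast (DD_pos hN k (n + 1)))
  calc ‖(DD N k (n + 1) : ℝ)⁻¹‖ * ‖iteratedFDeriv ℝ i
        (fun s => A (al N (k + n)) (N (k + n) * psi N k n s)) s‖
      ≤ 1 * (tau N k * (1 / 2) ^ (n + 1)) := by
        refine mul_le_mul h2 h (norm_nonneg _) zero_le_one
    _ = _ := one_mul _

lemma summable_bound (c : ℝ) : Summable fun n : ℕ => c * (1 / 2 : ℝ) ^ (n + 1) := by
  have h := (summable_geometric_of_lt_one (r := (1 / 2 : ℝ)) (by norm_num) (by norm_num))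
  exact ((summable_nat_add_iff 1).mpr h).mul_left c

lemma tsum_bound (c : ℝ) : ∑' n : ℕ, c * (1 / 2 : ℝ) ^ (n + 1) = c := by
  rw [tsum_mul_left]
  have : ∑' n : ℕ, (1 / 2 : ℝ) ^ (n + 1) = 1 := by
    have h := tsum_geometric_two
    simp only [pow_succ]
    rw [tsum_mul_right, h]
    norm_num
  rw [this, mul_one]

lemma E_contDiff (hN : ∀ j, 3 ≤ N j) (hG : ∀ j, GoodA N j) (k : ℕ) : ContDiff ℝ ∞ (E N k) := by
  refine contDiff_tsum_of_eventually (N := ⊤)
    (v := fun (_ n : ℕ) => tau N k * (1 / 2) ^ (n + 1))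
    (fun n => eterm_contDiff hN k n) (fun i _ => summable_bound _) ?_
  intro i _
  rw [Nat.cofinite_eq_atTop]
  filter_upwards [eventually_ge_atTop i] with n hn x
  exact eterm_bound hN hG k n i (by omega) x

lemma E_deriv_bound (hN : ∀ j, 3 ≤ N j) (hG : ∀ j, GoodA N j) (k i : ℕ) (hi : i ≤ 3) (s : ℝ) :
    ‖iteratedFDeriv ℝ i (E N k) s‖ ≤ tau N k := by
  have key := iteratedFDeriv_tsum_apply (𝕜 := ℝ) (f := eterm N k) (N := 3)
    (v := fun (_ n : ℕ) => tau N k * (1 / 2) ^ (n + 1))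
    (fun n => (eterm_contDiff hN k n).of_le (by exact_mod_cast le_top))
    (fun i _ => summable_bound _)
    (fun i n x hi' => eterm_bound hN hG k n i (by
      have : i ≤ 3 := by exact_mod_cast hi'
      omega) x) (k := i) (by exact_mod_cast hi) s
  have e : (fun y => ∑' n, eterm N k n y) = E N k := rfl
  rw [e] at key
  rw [key]
  have h := tsum_of_norm_bounded (summable_bound (tau N k)).hasSum
    (fun n => eterm_bound hN hG k n i (by omega) s)
  rwa [tsum_bound] at h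

lemma summable_eterm (hN : ∀ j, 3 ≤ N j) (hG : ∀ j, GoodA N j) (k : ℕ) (s : ℝ) :
    Summable fun n => eterm N k n s := by
  refine Summable.of_norm_bounded (summable_bound (tau N k)) fun n => ?_
  have := eterm_bound hN hG k n 0 (by omega) s
  rwa [norm_iteratedFDeriv_zero] at this

lemma tendsto_psi_div (hN : ∀ j, 3 ≤ N j) (hG : ∀ j, GoodA N j) (k : ℕ) (s : ℝ) :
    Tendsto (fun n => psi N k n s / DD N k n) atTop (𝓝 (Psi N k s)) := by
  simp only [psi_div hN]
  exact (summable_eterm hN hG k s).hasSum.tendsto_sum_nat.const_add s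

lemma Psi_comp (hN : ∀ j, 3 ≤ N j) (hG : ∀ j, GoodA N j) (k : ℕ) (s : ℝ) :
    Psi N 0 s = Psi N k (psi N 0 k s) / DD N 0 k := by
  have h1 := (tendsto_psi_div hN hG 0 s).comp (tendsto_add_atTop_nat k)
  have h2 := (tendsto_psi_div hN hG k (psi N 0 k s)).div_const (DD N 0 k : ℝ)
  have h3 : (fun n => psi N 0 n s / DD N 0 n) ∘ (fun n => n + k)
      = fun n => psi N k n (psi N 0 k s) / DD N k n / DD N 0 k := by
    ext n
    simp only [Function.comp]
    rw [add_comm n k, psi_add, DD_add]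
    push_cast
    rw [div_div, mul_comm (DD N 0 k : ℝ)]
  rw [h3] at h1
  exact tendsto_nhds_unique h1 h2

/-! ### Symmetries -/

lemma psi_neg (hN : ∀ j, 3 ≤ N j) (k n : ℕ) (s : ℝ) : psi N k n (-s) = -psi N k n s := by
  induction n with
  | zero => rfl
  | succ n ih =>
    rw [psi_succ, psi_succ, ih, mul_neg, A_neg (al_pos (hN _)).le
      ((al_le (hN _)).trans_lt (by norm_num))]
    ring

lemma E_neg (hN : ∀ j, 3 ≤ N j) (k : ℕ) (s : ℝ) : E N k (-s) = -E N k s := by
  unfold E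
  rw [← tsum_neg]
  congr 1
  ext n
  unfold eterm
  rw [psi_neg hN, mul_neg, A_neg (al_pos (hN _)).le ((al_le (hN _)).trans_lt (by norm_num))]
  ring

lemma psi_period (k n : ℕ) (l : ℤ) (s : ℝ) :
    ∃ m : ℤ, psi N k (n + 1) (s + l * (2 * Real.pi) / N k)
      = psi N k (n + 1) s + m * (2 * Real.pi) ∨ N k = 0 := by
  by_cases h0 : N k = 0
  · exact ⟨0, Or.inr h0⟩
  have h0' : (N k : ℝ) ≠ 0 := by exact_mod_cast h0
  induction n with
  | zero =>
    refine ⟨l, Or.inl ?_⟩
    rw [psi_succ, psi_succ]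
    simp only [psi, add_zero]
    have e : (N k : ℝ) * (s + l * (2 * Real.pi) / N k) = N k * s + l * (2 * Real.pi) := by
      field_simp
    rw [e, A_add_two_pi]
    ring
  | succ n ih =>
    obtain ⟨m, hm⟩ := ih
    rcases hm with hm | hm
    · refine ⟨N (k + (n + 1)) * m, Or.inl ?_⟩
      rw [psi_succ (n := n + 1), psi_succ (n := n + 1), hm]
      have e : (N (k + (n + 1)) : ℝ) * (psi N k (n + 1) s + m * (2 * Real.pi))
          = N (k + (n + 1)) * psi N k (n + 1) s
            + ((N (k + (n + 1)) * m : ℤ) : ℝ) * (2 * Real.pi) := by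
        push_cast; ring
      rw [e, A_add_two_pi]
      ring
    · exact absurd hm h0

lemma E_period (hN : ∀ j, 3 ≤ N j) (k : ℕ) (l : ℤ) (s : ℝ) :
    E N k (s + l * (2 * Real.pi) / N k) = E N k s := by
  unfold E
  congr 1
  ext n
  unfold eterm
  congr 1
  have h0 : N k ≠ 0 := by have := hN k; omega
  cases n with
  | zero =>
    simp only [psi, add_zero]
    have h0' : (N k : ℝ) ≠ 0 := by exact_mod_cast h0
    have e : (N k : ℝ) * (s + l * (2 * Real.pi) / N k) = N k * s + l * (2 * Real.pi) := by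
      field_simp
    rw [e, A_add_two_pi]
  | succ n =>
    obtain ⟨m, hm⟩ := psi_period (N := N) k n l s
    rcases hm with hm | hm
    · rw [hm]
      have e : (N (k + (n + 1)) : ℝ) * (psi N k (n + 1) s + m * (2 * Real.pi))
          = N (k + (n + 1)) * psi N k (n + 1) s
            + ((N (k + (n + 1)) * m : ℤ) : ℝ) * (2 * Real.pi) := by
        push_cast; ring
      rw [e, A_add_two_pi]
    · exact absurd hm h0

lemma E_period_two_pi (hN : ∀ j, 3 ≤ N j) (k : ℕ) (l : ℤ) (s : ℝ) :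
    E N k (s + l * (2 * Real.pi)) = E N k s := by
  have h := E_period hN k (N k * l) s
  have h0' : (N k : ℝ) ≠ 0 := by
    have := hN k
    exact_mod_cast (by omega : N k ≠ 0)
  have e : (((N k * l : ℤ)) : ℝ) * (2 * Real.pi) / N k = l * (2 * Real.pi) := by
    push_cast; field_simp
  rwa [e] at h

/-! ### Derivatives -/

/-- the boundary weight at level `k` -/
noncomputable def Q (N : ℕ → ℕ) (k : ℕ) (s : ℝ) : ℝ := 1 + deriv (E N k) s

lemma E_hasDerivAt (hN : ∀ j, 3 ≤ N j) (hG : ∀ j, GoodA N j) (k : ℕ) (s : ℝ) :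
    HasDerivAt (E N k) (deriv (E N k) s) s :=
  ((E_contDiff hN hG k).differentiable (by simp)).differentiableAt.hasDerivAt

lemma Psi_hasDerivAt (hN : ∀ j, 3 ≤ N j) (hG : ∀ j, GoodA N j) (k : ℕ) (s : ℝ) :
    HasDerivAt (Psi N k) (Q N k s) s :=
  (hasDerivAt_id s).add (E_hasDerivAt hN hG k s)

lemma abs_deriv_E_le (hN : ∀ j, 3 ≤ N j) (hG : ∀ j, GoodA N j) (k : ℕ) (s : ℝ) :
    |deriv (E N k) s| ≤ tau N k := by
  have h := E_deriv_bound hN hG k 1 (by norm_num) s
  rwa [norm_iteratedFDeriv_eq_norm_iteratedDeriv, iteratedDeriv_one] at h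

lemma Q_pos (hN : ∀ j, 3 ≤ N j) (hG : ∀ j, GoodA N j) (k : ℕ) (s : ℝ) : 3 / 4 ≤ Q N k s := by
  have h1 := abs_deriv_E_le hN hG k s
  have h2 := tau_le hN k
  have h3 := (abs_le.mp h1).1
  unfold Q
  linarith

lemma psi_hasDerivAt (hN : ∀ j, 3 ≤ N j) (k n : ℕ) (s : ℝ) :
    HasDerivAt (psi N k n) (deriv (psi N k n) s) s :=
  ((psi_BD hN k n).1.differentiable (by simp)).differentiableAt.hasDerivAt

lemma Q_comp (hN : ∀ j, 3 ≤ N j) (hG : ∀ j, GoodA N j) (k : ℕ) (s : ℝ) :
    Q N 0 s = Q N k (psi N 0 k s) * deriv (psi N 0 k) s / DD N 0 k := by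
  have h1 := Psi_hasDerivAt hN hG 0 s
  have h2 : HasDerivAt (fun s => Psi N k (psi N 0 k s) / DD N 0 k)
      (Q N k (psi N 0 k s) * deriv (psi N 0 k) s / DD N 0 k) s :=
    ((Psi_hasDerivAt hN hG k (psi N 0 k s)).comp s (psi_hasDerivAt hN 0 k s)).div_const _
  have h3 : (fun s => Psi N k (psi N 0 k s) / DD N 0 k) = Psi N 0 := by
    ext s; exact (Psi_comp hN hG k s).symm
  rw [h3] at h2
  exact h1.unique h2

lemma CA_one : CA 1 = 8 := by
  unfold CA
  rw [tsum_mul_left]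
  have h := tsum_coe_mul_geometric_of_norm_lt_one (r := (1 / 2 : ℝ))
    (by rw [Real.norm_eq_abs, abs_of_pos] <;> norm_num)
  simp only [pow_one]
  rw [h]
  norm_num

lemma deriv_psi_pos (hN : ∀ j, 3 ≤ N j) (k n : ℕ) (s : ℝ) : 0 < deriv (psi N k n) s := by
  induction n with
  | zero =>
    have : deriv (psi N k 0) s = 1 := by
      have e : psi N k 0 = fun s => s := rfl
      rw [e]; simp
    rw [this]; exact one_pos
  | succ n ih =>
    have ha := (al_pos (hN (k + n))).le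
    have ha2 : al N (k + n) ≤ 1 / 2 := (al_le (hN _)).trans (by norm_num)
    have h1 := psi_hasDerivAt hN k n s
    have h2 : HasDerivAt (A (al N (k + n))) (deriv (A (al N (k + n))) (N (k + n) * psi N k n s))
        (N (k + n) * psi N k n s) :=
      ((A_contDiff ha ha2).differentiable (by simp)).differentiableAt.hasDerivAt
    have h3 := (h1.const_mul (N (k + n) : ℝ)).add (h2.comp s (h1.const_mul (N (k + n) : ℝ)))
    have h4 : deriv (psi N k (n + 1)) s = N (k + n) * deriv (psi N k n) s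
        + deriv (A (al N (k + n))) (N (k + n) * psi N k n s)
          * (N (k + n) * deriv (psi N k n) s) := h3.deriv
    rw [h4]
    have h5 : |deriv (A (al N (k + n))) (N (k + n) * psi N k n s)| ≤ al N (k + n) * 8 := by
      have h := A_deriv_bound ha ha2 1 (N (k + n) * psi N k n s)
      rwa [norm_iteratedFDeriv_eq_norm_iteratedDeriv, iteratedDeriv_one, CA_one] at h
    have h6 := (abs_le.mp h5).1
    have h7 := al_le (hN (k + n))
    have h8 : (0 : ℝ) < N (k + n) := by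
      have := hN (k + n)
      exact_mod_cast (by omega : 0 < N (k + n))
    have h9 : 0 < (N (k + n) : ℝ) * deriv (psi N k n) s := mul_pos h8 ih
    have h10 : -(1 / 2 : ℝ) ≤ deriv (A (al N (k + n))) (N (k + n) * psi N k n s) := by linarith
    nlinarith

end Pool.Agent.Helper49.Steklov
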